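import Pool.Agent.XR.Leg1
import Pool.Agent.XW.Defs

/-!
# The Rédei symbols and the numbers `x² + n y²`

Project XR, task XR-2 (helper73).
-/

set_option autoImplicit false

namespace Pool.Agent.XR

open Finset
open Pool.Agent.Z700 (pr)

namespace Leg

theorem pr_dvd {S : Finset ℕ} (hS : ∀ p ∈ S, p.Prime) {p : ℕ} (hp : p.Prime) :
    p ∣ ∏ l ∈ S, l ↔ p ∈ S := by
  rw [Prime.dvd_finsetProd_iff hp.prime]
  constructor
  · rintro ⟨l, hl, hpl⟩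
    have : p = l := (Nat.prime_dvd_prime_iff_eq hp (hS l hl)).1 hpl
    rwa [this]
  · intro h
    exact ⟨p, h, dvd_rfl⟩

theorem pr_cop {S T : Finset ℕ} (hS : ∀ p ∈ S, p.Prime) (hT : ∀ p ∈ T, p.Prime)
    (hST : Disjoint S T) : (∏ l ∈ S, l).Coprime (∏ l ∈ T, l) := by
  refine Nat.Coprime.prod_left fun i hi => Nat.Coprime.prod_right fun j hj => ?_
  refine (Nat.coprime_primes (hS i hi) (hT j hj)).2 ?_
  rintro rfl
  exact (Finset.disjoint_left.1 hST) hi hj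

theorem pr_sqf {S : Finset ℕ} (hS : ∀ p ∈ S, p.Prime) : Squarefree (∏ l ∈ S, l) := by
  induction S using Finset.induction_on with
  | empty => simp
  | insert q S hq ih =>
    rw [Finset.prod_insert hq, Nat.squarefree_mul_iff]
    have hqp : q.Prime := hS q (Finset.mem_insert_self _ _)
    have hS' : ∀ p ∈ S, p.Prime := fun p hp => hS p (Finset.mem_insert_of_mem hp)
    refine ⟨?_, hqp.squarefree, ih hS'⟩
    refine Nat.Coprime.prod_right fun j hj => ?_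
    refine (Nat.coprime_primes hqp (hS' j hj)).2 ?_
    rintro rfl
    exact hq hj

theorem sq_two (a : ZMod 2) : IsSquare a := by
  fin_cases a
  · exact ⟨0, rfl⟩
  · exact ⟨1, rfl⟩

theorem sym_iff {p : ℕ} (hp : p.Prime) {m : ℤ} (hm : ¬ (p : ℤ) ∣ m) :
    jacobiSym m p = 1 ↔ IsSquare (m : ZMod p) := by
  have : Fact p.Prime := ⟨hp⟩
  rw [← jacobiSym.legendreSym.to_jacobiSym]
  refine legendreSym.eq_one_iff p ?_
  intro h
  exact hm ((ZMod.intCast_zmod_eq_zero_iff_dvd _ _).1 h)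

theorem sym_sq {p : ℕ} (hp : p.Prime) {u v : ℤ} (hu : ¬ (p : ℤ) ∣ u) (hv : ¬ (p : ℤ) ∣ v) :
    jacobiSym (u ^ 2 * v) p = 1 ↔ IsSquare (v : ZMod p) := by
  have : Fact p.Prime := ⟨hp⟩
  have hpp : Prime (p : ℤ) := Nat.prime_iff_prime_int.1 hp
  rw [sym_iff hp fun h => (hpp.dvd_or_dvd h).elim (fun h => hu (hpp.dvd_of_dvd_pow h)) hv]
  have hu0 : (u : ZMod p) ≠ 0 := fun h => hu ((ZMod.intCast_zmod_eq_zero_iff_dvd _ _).1 h)
  push_cast
  constructor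
  · rintro ⟨w, hw⟩
    refine ⟨w / u, ?_⟩
    field_simp
    linear_combination hw
  · rintro ⟨w, hw⟩
    refine ⟨u * w, ?_⟩
    rw [hw]
    ring

theorem scale (s t c : ℕ) (hs : s ≠ 0) :
    (∃ x y : ℚ, x ^ 2 + ((s * t : ℕ) : ℚ) * y ^ 2 = ((c * s : ℕ) : ℚ)) ↔
      ∃ x y : ℚ, (s : ℚ) * x ^ 2 + t * y ^ 2 = c := by
  have hs' : (s : ℚ) ≠ 0 := by exact_mod_cast hs
  constructor
  · rintro ⟨x, y, h⟩
    refine ⟨x / s, y, ?_⟩
    push_cast at h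
    apply mul_left_cancel₀ hs'
    field_simp
    linear_combination h
  · rintro ⟨x, y, h⟩
    refine ⟨s * x, y, ?_⟩
    push_cast
    rw [← h]
    ring

theorem one_case {S T : Finset ℕ} (hS : ∀ p ∈ S, p.Prime) (hT : ∀ p ∈ T, p.Prime)
    (hST : Disjoint S T) :
    (∃ x y : ℚ, x ^ 2 + (((∏ l ∈ S, l) * (∏ l ∈ T, l) : ℕ) : ℚ) * y ^ 2 = ((∏ l ∈ S, l : ℕ) : ℚ)) ↔
      (∀ p ∈ S, p ≠ 2 → IsSquare (((∏ l ∈ T, l : ℕ) : ℤ) : ZMod p)) ∧
      (∀ p ∈ T, p ≠ 2 → IsSquare (((∏ l ∈ S, l : ℕ) : ℤ) : ZMod p)) := by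
  have h1 := scale (∏ l ∈ S, l) (∏ l ∈ T, l) 1 (pr_sqf hS).ne_zero
  rw [one_mul] at h1
  rw [h1]
  have h2 := rat_iff (pr_sqf hS) (pr_sqf hT) squarefree_one (pr_cop hS hT hST)
    (Nat.coprime_one_right _) (Nat.coprime_one_right _)
  rw [h2]
  constructor
  · rintro ⟨g1, g2, -⟩
    refine ⟨fun p hp _ => ?_, fun p hp _ => ?_⟩
    · have := g1 p (hS p hp) ((pr_dvd hS (hS p hp)).2 hp)
      simpa using this
    · have := g2 p (hT p hp) ((pr_dvd hT (hT p hp)).2 hp)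
      simpa using this
  · rintro ⟨g1, g2⟩
    refine ⟨fun p hp hpS => ?_, fun p hp hpT => ?_, fun p hp hp1 => ?_⟩
    · by_cases hp2 : p = 2
      · subst hp2; exact sq_two _
      · have := g1 p ((pr_dvd hS hp).1 hpS) hp2
        simpa using this
    · by_cases hp2 : p = 2
      · subst hp2; exact sq_two _
      · have := g2 p ((pr_dvd hT hp).1 hpT) hp2
        simpa using this
    · exact absurd (Nat.dvd_one.1 hp1) hp.one_lt.ne'

theorem two_case {S T : Finset ℕ} (hS : ∀ p ∈ S, p.Prime ∧ p ≠ 2) (hT : ∀ p ∈ T, p.Prime ∧ p ≠ 2)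
    (hST : Disjoint S T) :
    (∃ x y : ℚ, x ^ 2 + (((∏ l ∈ S, l) * (∏ l ∈ T, l) : ℕ) : ℚ) * y ^ 2 =
        ((2 * ∏ l ∈ S, l : ℕ) : ℚ)) ↔
      (∀ p ∈ S, IsSquare ((2 * (∏ l ∈ T, l : ℕ) : ℤ) : ZMod p)) ∧
      (∀ p ∈ T, IsSquare ((2 * (∏ l ∈ S, l : ℕ) : ℤ) : ZMod p)) := by
  have hS1 : ∀ p ∈ S, p.Prime := fun p hp => (hS p hp).1
  have hT1 : ∀ p ∈ T, p.Prime := fun p hp => (hT p hp).1
  have c2 : ∀ {U : Finset ℕ}, (∀ p ∈ U, p.Prime ∧ p ≠ 2) → (∏ l ∈ U, l).Coprime 2 := by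
    intro U hU
    refine Nat.Coprime.prod_left fun i hi => ?_
    exact (Nat.coprime_primes (hU i hi).1 Nat.prime_two).2 (hU i hi).2
  have h2 := rat_iff (pr_sqf hS1) (pr_sqf hT1) Nat.prime_two.squarefree (pr_cop hS1 hT1 hST)
    (c2 hS) (c2 hT)
  rw [scale (∏ l ∈ S, l) (∏ l ∈ T, l) 2 (pr_sqf hS1).ne_zero, h2]
  constructor
  · rintro ⟨g1, g2, -⟩
    refine ⟨fun p hp => ?_, fun p hp => ?_⟩
    · have := g1 p (hS1 p hp) ((pr_dvd hS1 (hS1 p hp)).2 hp)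
      rw [mul_comm]
      exact this
    · have := g2 p (hT1 p hp) ((pr_dvd hT1 (hT1 p hp)).2 hp)
      rw [mul_comm]
      exact this
  · rintro ⟨g1, g2⟩
    refine ⟨fun p hp hpS => ?_, fun p hp hpT => ?_, fun p hp hp1 => ?_⟩
    · have := g1 p ((pr_dvd hS1 hp).1 hpS)
      rw [mul_comm] at this
      exact this
    · have := g2 p ((pr_dvd hT1 hp).1 hpT)
      rw [mul_comm] at this
      exact this
    · have hp2 : p = 2 := (Nat.prime_dvd_prime_iff_eq hp Nat.prime_two).1 hp1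
      subst hp2
      exact sq_two _

theorem ndvd {S : Finset ℕ} (hS : ∀ p ∈ S, p.Prime) {p : ℕ} (hp : p.Prime) (h : p ∉ S) :
    ¬ (p : ℤ) ∣ ((∏ l ∈ S, l : ℕ) : ℤ) := by
  intro hd
  have : p ∣ ∏ l ∈ S, l := by exact_mod_cast hd
  exact h ((pr_dvd hS hp).1 this)

end Leg

/-- XR-2, odd discriminants -/
theorem odd_case {N D : Finset ℕ} (hN : ∀ p ∈ N, p.Prime ∧ p ≠ 2) (hD : D ⊆ N) :
    (∃ x y : ℚ, x ^ 2 + (pr N : ℚ) * y ^ 2 = (pr D : ℚ)) ↔ ∀ p ∈ N, XV.gen N D p = 1 := by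
  have hN1 : ∀ p ∈ N, p.Prime := fun p hp => (hN p hp).1
  have hD1 : ∀ p ∈ D, p.Prime := fun p hp => hN1 p (hD hp)
  have hT1 : ∀ p ∈ N \ D, p.Prime := fun p hp => hN1 p (Finset.mem_sdiff.1 hp).1
  have hdis : Disjoint D (N \ D) := Finset.disjoint_sdiff
  have hprod : pr N = (∏ l ∈ D, l) * ∏ l ∈ N \ D, l := by
    unfold Pool.Agent.Z700.pr
    rw [mul_comm]
    exact (Finset.prod_sdiff hD).symm
  have h1 := Leg.one_case hD1 hT1 hdis
  rw [← hprod] at h1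
  have hprD : pr D = ∏ l ∈ D, l := rfl
  rw [hprD, h1]
  constructor
  · rintro ⟨g1, g2⟩ p hp
    unfold XV.gen
    split_ifs with hpD
    · exact (Leg.sym_iff (hN1 p hp) (Leg.ndvd hT1 (hN1 p hp)
        fun h => (Finset.mem_sdiff.1 h).2 hpD)).2 (g1 p hpD (hN p hp).2)
    · exact (Leg.sym_iff (hN1 p hp) (Leg.ndvd hD1 (hN1 p hp) hpD)).2
        (g2 p (Finset.mem_sdiff.2 ⟨hp, hpD⟩) (hN p hp).2)
  · intro g
    refine ⟨fun p hp _ => ?_, fun p hp _ => ?_⟩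
    · have h2 := g p (hD hp)
      unfold XV.gen at h2
      rw [if_pos hp] at h2
      exact (Leg.sym_iff (hD1 p hp) (Leg.ndvd hT1 (hD1 p hp)
        fun h => (Finset.mem_sdiff.1 h).2 hp)).1 h2
    · have hpD := (Finset.mem_sdiff.1 hp).2
      have h2 := g p (Finset.mem_sdiff.1 hp).1
      unfold XV.gen at h2
      rw [if_neg hpD] at h2
      exact (Leg.sym_iff (hT1 p hp) (Leg.ndvd hD1 (hT1 p hp) hpD)).1 h2

namespace Leg

/-- the part of a product prime to `p` -/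
theorem split_pr {D : Finset ℕ} (hD : ∀ p ∈ D, p.Prime) {p : ℕ} (hp : p ∈ D) :
    ∏ l ∈ D, l = p * ∏ l ∈ D.erase p, l ∧ ¬ (p : ℤ) ∣ ((∏ l ∈ D.erase p, l : ℕ) : ℤ) :=
  ⟨(Finset.mul_prod_erase D (fun l => l) hp).symm,
    ndvd (fun q hq => hD q (Finset.mem_of_mem_erase hq)) (hD p hp) (Finset.notMem_erase p D)⟩

theorem caseI {δ : ℤ} {N D T : Finset ℕ} (hN : ∀ p ∈ N, p.Prime) (hD : D ⊆ N)
    (hT : ∀ p, p ≠ 2 → (p ∈ T ↔ p ∈ N ∧ p ∉ D)) (hT1 : ∀ p ∈ T, p.Prime) (hdis : Disjoint D T)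
    (hpe : XW.pe δ N = 4 * ((∏ l ∈ D, l) * ∏ l ∈ T, l)) :
    (∃ x y : ℚ, x ^ 2 + ((XW.pe δ N / 4 : ℕ) : ℚ) * y ^ 2 = ((∏ l ∈ D, l : ℕ) : ℚ)) ↔
      ∀ p ∈ N.erase 2, XW.gen δ N D p = 1 := by
  have hD1 : ∀ p ∈ D, p.Prime := fun p hp => hN p (hD hp)
  have e1 : XW.pe δ N / 4 = (∏ l ∈ D, l) * ∏ l ∈ T, l := by omega
  rw [e1, one_case hD1 hT1 hdis]
  have gin : ∀ p ∈ D, p ≠ 2 →
      (XW.gen δ N D p = 1 ↔ IsSquare (((∏ l ∈ T, l : ℕ) : ℤ) : ZMod p)) := by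
    intro p hp hp2
    have hpp := hD1 p hp
    obtain ⟨f1, f2⟩ := split_pr hD1 hp
    set d0 : ℕ := ∏ l ∈ D.erase p, l with hd0
    set t : ℕ := ∏ l ∈ T, l with ht
    have f3 : (∏ l ∈ D, l) / p = d0 := by rw [f1]; exact Nat.mul_div_cancel_left _ hpp.pos
    have f4 : XW.pe δ N / p = 4 * (d0 * t) := by
      rw [hpe, f1]
      have : 4 * (p * d0 * t) = p * (4 * (d0 * t)) := by ring
      rw [this]
      exact Nat.mul_div_cancel_left _ hpp.pos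
    unfold XW.gen
    rw [if_pos hp, f3, f4]
    have f5 : ((d0 * (4 * (d0 * t)) : ℕ) : ℤ) = (2 * d0 : ℤ) ^ 2 * (t : ℤ) := by
      push_cast; ring
    rw [f5]
    refine sym_sq hpp ?_ ?_
    · intro h
      rcases (Nat.prime_iff_prime_int.1 hpp).dvd_or_dvd h with h | h
      · have h' : p ∣ 2 := by exact_mod_cast h
        exact hp2 ((Nat.prime_dvd_prime_iff_eq hpp Nat.prime_two).1 h')
      · exact f2 h
    · exact ndvd hT1 hpp (Finset.disjoint_left.1 hdis hp)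
  have gout : ∀ p, p.Prime → p ∉ D →
      (XW.gen δ N D p = 1 ↔ IsSquare (((∏ l ∈ D, l : ℕ) : ℤ) : ZMod p)) := by
    intro p hpp hp
    unfold XW.gen
    rw [if_neg hp]
    exact sym_iff hpp (ndvd hD1 hpp hp)
  constructor
  · rintro ⟨g1, g2⟩ p hp
    have hp2 := Finset.ne_of_mem_erase hp
    have hpN := Finset.mem_of_mem_erase hp
    by_cases hpD : p ∈ D
    · exact (gin p hpD hp2).2 (g1 p hpD hp2)
    · exact (gout p (hN p hpN) hpD).2 (g2 p ((hT p hp2).2 ⟨hpN, hpD⟩) hp2)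
  · intro g
    refine ⟨fun p hp hp2 => ?_, fun p hp hp2 => ?_⟩
    · exact (gin p hp hp2).1 (g p (Finset.mem_erase.2 ⟨hp2, hD hp⟩))
    · obtain ⟨h1, h2⟩ := (hT p hp2).1 hp
      exact (gout p (hT1 p hp) h2).1 (g p (Finset.mem_erase.2 ⟨hp2, h1⟩))

theorem caseII {δ : ℤ} {N D T : Finset ℕ} (hN : ∀ p ∈ N, p.Prime) (hD : D ⊆ N) (h2 : 2 ∈ D)
    (hT : ∀ p, p ∈ T ↔ p ∈ N ∧ p ∉ D)
    (hpe : XW.pe δ N = 4 * ((∏ l ∈ D.erase 2, l) * ∏ l ∈ T, l)) :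
    (∃ x y : ℚ, x ^ 2 + ((XW.pe δ N / 4 : ℕ) : ℚ) * y ^ 2 = ((∏ l ∈ D, l : ℕ) : ℚ)) ↔
      ∀ p ∈ N.erase 2, XW.gen δ N D p = 1 := by
  have hD1 : ∀ p ∈ D, p.Prime := fun p hp => hN p (hD hp)
  have hS1 : ∀ p ∈ D.erase 2, p.Prime ∧ p ≠ 2 := fun p hp =>
    ⟨hD1 p (Finset.mem_of_mem_erase hp), Finset.ne_of_mem_erase hp⟩
  have hT1 : ∀ p ∈ T, p.Prime ∧ p ≠ 2 := fun p hp => by
    obtain ⟨h1, h3⟩ := (hT p).1 hp
    exact ⟨hN p h1, fun h => h3 (h ▸ h2)⟩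
  have hdis : Disjoint (D.erase 2) T := by
    rw [Finset.disjoint_left]
    intro p hp hp'
    exact ((hT p).1 hp').2 (Finset.mem_of_mem_erase hp)
  have e1 : XW.pe δ N / 4 = (∏ l ∈ D.erase 2, l) * ∏ l ∈ T, l := by omega
  have e2 : ∏ l ∈ D, l = 2 * ∏ l ∈ D.erase 2, l := (Finset.mul_prod_erase D (fun l => l) h2).symm
  rw [e1, e2, two_case hS1 hT1 hdis]
  have gin : ∀ p ∈ D.erase 2,
      (XW.gen δ N D p = 1 ↔ IsSquare ((2 * (∏ l ∈ T, l : ℕ) : ℤ) : ZMod p)) := by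
    intro p hp
    obtain ⟨hpp, hp2⟩ := hS1 p hp
    obtain ⟨f1, f2⟩ := split_pr (fun q hq => (hS1 q hq).1) hp
    set d0 : ℕ := ∏ l ∈ (D.erase 2).erase p, l with hd0
    set t : ℕ := ∏ l ∈ T, l with ht
    have f3 : (∏ l ∈ D, l) / p = 2 * d0 := by
      rw [e2, f1]
      have : 2 * (p * d0) = p * (2 * d0) := by ring
      rw [this]
      exact Nat.mul_div_cancel_left _ hpp.pos
    have f4 : XW.pe δ N / p = 4 * (d0 * t) := by
      rw [hpe, f1]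
      have : 4 * (p * d0 * t) = p * (4 * (d0 * t)) := by ring
      rw [this]
      exact Nat.mul_div_cancel_left _ hpp.pos
    have hp2' : ¬ (p : ℤ) ∣ 2 := by
      intro h
      have h' : p ∣ 2 := by exact_mod_cast h
      exact hp2 ((Nat.prime_dvd_prime_iff_eq hpp Nat.prime_two).1 h')
    unfold XW.gen
    rw [if_pos (Finset.mem_of_mem_erase hp), f3, f4]
    have f5 : ((2 * d0 * (4 * (d0 * t)) : ℕ) : ℤ) = (2 * d0 : ℤ) ^ 2 * (2 * (t : ℤ)) := by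
      push_cast; ring
    rw [f5]
    refine sym_sq hpp ?_ ?_
    · intro h
      rcases (Nat.prime_iff_prime_int.1 hpp).dvd_or_dvd h with h | h
      · exact hp2' h
      · exact f2 h
    · intro h
      rcases (Nat.prime_iff_prime_int.1 hpp).dvd_or_dvd h with h | h
      · exact hp2' h
      · exact ndvd (fun q hq => (hT1 q hq).1) hpp (Finset.disjoint_left.1 hdis hp) h
  have gout : ∀ p, p.Prime → p ∉ D →
      (XW.gen δ N D p = 1 ↔ IsSquare ((2 * (∏ l ∈ D.erase 2, l : ℕ) : ℤ) : ZMod p)) := by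
    intro p hpp hp
    unfold XW.gen
    rw [if_neg hp, sym_iff hpp (ndvd hD1 hpp hp), e2]
    push_cast
    rfl
  constructor
  · rintro ⟨g1, g2⟩ p hp
    have hp2 := Finset.ne_of_mem_erase hp
    have hpN := Finset.mem_of_mem_erase hp
    by_cases hpD : p ∈ D
    · exact (gin p (Finset.mem_erase.2 ⟨hp2, hpD⟩)).2 (g1 p (Finset.mem_erase.2 ⟨hp2, hpD⟩))
    · exact (gout p (hN p hpN) hpD).2 (g2 p ((hT p).2 ⟨hpN, hpD⟩))
  · intro g
    refine ⟨fun p hp => ?_, fun p hp => ?_⟩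
    · exact (gin p hp).1 (g p (Finset.mem_erase.2 ⟨(hS1 p hp).2, hD (Finset.mem_of_mem_erase hp)⟩))
    · obtain ⟨h1, h3⟩ := (hT p).1 hp
      exact (gout p (hT1 p hp).1 h3).1 (g p (Finset.mem_erase.2 ⟨(hT1 p hp).2, h1⟩))

theorem pe_eq (δ : ℤ) {N : Finset ℕ} (h2 : 2 ∈ N) :
    XW.pe δ N = δ.natAbs * ∏ l ∈ N.erase 2, l := by
  unfold XW.pe
  rw [← Finset.mul_prod_erase N (XW.md δ) h2]
  congr 1
  refine Finset.prod_congr rfl fun p hp => ?_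
  unfold XW.md
  rw [if_neg (Finset.ne_of_mem_erase hp)]

end Leg

/-- XR-2, even discriminants -/
theorem even_case {δ : ℤ} (hδ : XW.Dt δ) {N D : Finset ℕ} (h2 : 2 ∈ N) (hN : ∀ p ∈ N, p.Prime)
    (hD : D ⊆ N) :
    (∃ x y : ℚ, x ^ 2 + ((XW.pe δ N / 4 : ℕ) : ℚ) * y ^ 2 = ((∏ l ∈ D, l : ℕ) : ℚ)) ↔
      ∀ p ∈ N.erase 2, XW.gen δ N D p = 1 := by
  have hpe := Leg.pe_eq δ h2
  have eight : δ.natAbs = 8 → ((∃ x y : ℚ, x ^ 2 + ((XW.pe δ N / 4 : ℕ) : ℚ) * y ^ 2 =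
      ((∏ l ∈ D, l : ℕ) : ℚ)) ↔ ∀ p ∈ N.erase 2, XW.gen δ N D p = 1) := by
    intro h8
    refine Leg.caseI (T := N \ D) hN hD (fun p _ => Finset.mem_sdiff)
      (fun p hp => hN p (Finset.mem_sdiff.1 hp).1) Finset.disjoint_sdiff ?_
    have h1 : (∏ l ∈ D, l) * ∏ l ∈ N \ D, l = ∏ l ∈ N, l := by
      rw [mul_comm]
      exact Finset.prod_sdiff hD
    have h3 : 2 * ∏ l ∈ N.erase 2, l = ∏ l ∈ N, l := Finset.mul_prod_erase N (fun l => l) h2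
    rw [hpe, h8, h1, ← h3]
    ring
  rcases hδ with rfl | rfl | rfl
  · by_cases hD2 : 2 ∈ D
    · refine Leg.caseII (T := N \ D) hN hD hD2 (fun p => Finset.mem_sdiff) ?_
      have h1 : N.erase 2 \ D.erase 2 = N \ D := by
        ext p
        simp only [Finset.mem_sdiff, Finset.mem_erase, not_and]
        constructor
        · rintro ⟨⟨a, b⟩, c⟩
          exact ⟨b, fun hp => c a hp⟩
        · rintro ⟨b, c⟩
          have a : p ≠ 2 := fun h => c (h ▸ hD2)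
          exact ⟨⟨a, b⟩, fun _ => c⟩
      have h3 : (∏ l ∈ D.erase 2, l) * ∏ l ∈ N \ D, l = ∏ l ∈ N.erase 2, l := by
        rw [← h1, mul_comm]
        exact Finset.prod_sdiff (Finset.erase_subset_erase 2 hD)
      rw [hpe, h3]
      rfl
    · have hD' : D ⊆ N.erase 2 := fun p hp =>
        Finset.mem_erase.2 ⟨fun h => hD2 (h ▸ hp), hD hp⟩
      refine Leg.caseI (T := N.erase 2 \ D) hN hD ?_ ?_ Finset.disjoint_sdiff ?_
      · intro p hp2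
        simp only [Finset.mem_sdiff, Finset.mem_erase]
        tauto
      · intro p hp
        exact hN p (Finset.mem_of_mem_erase (Finset.mem_sdiff.1 hp).1)
      · have h3 : (∏ l ∈ D, l) * ∏ l ∈ N.erase 2 \ D, l = ∏ l ∈ N.erase 2, l := by
          rw [mul_comm]
          exact Finset.prod_sdiff hD'
        rw [hpe, h3]
        rfl
  · exact eight rfl
  · exact eight rfl

end Pool.Agent.XR
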