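import Pool.Agent.XR.Ram

/-!
# Project XR: elements of order four of the class group and norms
-/

set_option autoImplicit false
set_option linter.unusedSectionVars false
open NumberField Ideal nonZeroDivisors

namespace Pool.Agent.XR
open Pool.Agent.H471R2

variable {K : Type} [Field K] [NumberField K]

theorem cl_congr' {I J : Ideal (𝓞 K)} (h : I = J) (hI : I ≠ ⊥) (hJ : J ≠ ⊥) : cl I hI = cl J hJ := by
  subst h; rfl

theorem root_ne {r : ℕ} (hr : r ≠ 0) {J : Ideal (𝓞 K)} (hJ : J ^ 2 = span {((r : ℕ) : 𝓞 K)}) : J ≠ ⊥ := by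
  rintro rfl
  rw [Ideal.bot_pow two_ne_zero] at hJ
  exact span_nat_ne hr hJ.symm

theorem absNorm_ne {J : Ideal (𝓞 K)} (hJ : J ≠ ⊥) : absNorm J ≠ 0 := by
  rwa [Ne, Ideal.absNorm_eq_zero_iff]

theorem prod_ne {n : ℕ} {D : Finset ℕ} (hD : D ⊆ Rn n) : (∏ p ∈ D, p) ≠ 0 :=
  Finset.prod_ne_zero_iff.2 fun _ hp => (Rn_prime (hD hp)).ne_zero

theorem prod_sqf {n : ℕ} {D : Finset ℕ} (hD : D ⊆ Rn n) : Squarefree (∏ p ∈ D, p) := by
  apply Finset.squarefree_prod_of_pairwise_isCoprime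
  · intro p hp q hq hpq
    exact Nat.coprime_iff_isRelPrime.1 ((Nat.coprime_primes (Rn_prime (hD hp)) (Rn_prime (hD hq))).2 hpq)
  · intro p hp
    exact (Rn_prime (hD hp)).prime.squarefree

theorem prod_pf {n : ℕ} {D : Finset ℕ} (hD : D ⊆ Rn n) : (∏ p ∈ D, p).primeFactors = D :=
  Nat.primeFactors_prod fun _ hp => Rn_prime (hD hp)

namespace Qd
variable {n : ℕ} (Q : Qd K n)

/-- the class of the conjugate -/
theorem cl_ia {I : Ideal (𝓞 K)} (hI : I ≠ ⊥) : cl I hI * cl (ia Q.σ I) (ia_ne_bot _ hI) = 1 := by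
  rw [← cl_mul, cl_congr' (Q.mul_ia I) _ (span_nat_ne (absNorm_ne hI))]
  exact cl_span (by exact_mod_cast absNorm_ne hI) _

include Q in
/-- classes of order two -/
theorem order_two (hn0 : n ≠ 0) {c : ClassGroup (𝓞 K)} (hc : c ^ 2 = 1) :
    ∃ (D : Finset ℕ) (J : Ideal (𝓞 K)) (h : J ≠ ⊥), D ⊆ Rn n ∧
      J ^ 2 = span {((∏ p ∈ D, p : ℕ) : 𝓞 K)} ∧ c = cl J h := by
  obtain ⟨I, hI, rfl⟩ := cl_surj c
  have h1 : ∃ (J : Ideal (𝓞 K)) (hJ : J ≠ ⊥) (r : ℕ), r ≠ 0 ∧ J ^ 2 = span {((r : ℕ) : 𝓞 K)} ∧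
      cl I hI = cl J hJ := by
    rw [sq, ← cl_mul, cl_eq_one_iff] at hc
    obtain ⟨γ, hγ0, hγ⟩ := hc
    have hN0 := absNorm_ne hI
    set N := absNorm I with hN
    have hnm : γ * ra Q.σ γ = (N : 𝓞 K) * (N : 𝓞 K) := by
      rw [Q.nm_int, ← hγ, map_mul]
      push_cast
      rfl
    by_cases h0 : γ + (N : 𝓞 K) = 0
    · refine ⟨I, hI, N, hN0, ?_, rfl⟩
      rw [sq, hγ, eq_neg_of_add_eq_zero_left h0, Ideal.span_singleton_neg]
    · set η := γ + (N : 𝓞 K) with hη
      have hη2 : γ * ra Q.σ η = (N : 𝓞 K) * η := by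
        rw [hη, map_add, map_natCast, mul_add, hnm]; ring
      have hση : ra Q.σ η ≠ 0 := by
        intro h
        exact h0 ((map_eq_zero_iff (ra Q.σ) (ra Q.σ).injective).1 h)
      have hJ0 : I * span {ra Q.σ η} ≠ ⊥ := mul_ne_zero hI (span_ne_bot hση)
      refine ⟨I * span {ra Q.σ η}, hJ0, N * absNorm (span {η}), ?_, ?_, ?_⟩
      · exact mul_ne_zero hN0 (absNorm_ne (span_ne_bot h0))
      · rw [mul_pow, sq I, hγ, Ideal.span_singleton_pow, Ideal.span_singleton_mul_span_singleton]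
        congr 2
        push_cast
        rw [← Q.nm_int]
        linear_combination (ra Q.σ η) * hη2
      · rw [cl_mul I (span {ra Q.σ η}) hI (span_ne_bot hση), cl_span hση, mul_one]
  obtain ⟨J, hJ, r, hr, hJr, hcl⟩ := h1
  obtain ⟨D, J', m, hm, hD, hJ', hJJ⟩ := Q.root_decomp hn0 hr hJr
  have hJ'0 : J' ≠ ⊥ := root_ne (prod_ne hD) hJ'
  refine ⟨D, J', hJ'0, hD, hJ', ?_⟩
  rw [hcl, cl_congr' hJJ hJ (mul_ne_zero (span_nat_ne hm) hJ'0), cl_mul _ _ (span_nat_ne hm) hJ'0,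
    cl_span (by exact_mod_cast hm), one_mul]

include Q in
/-- the norm of an ideal in a square class is the norm of an element -/
theorem norm_of_sq {I J : Ideal (𝓞 K)} (hI : I ≠ ⊥) (hJ : J ≠ ⊥) (h : cl I hI ^ 2 = cl J hJ) :
    ∃ x y : ℚ, x ^ 2 + (n : ℚ) * y ^ 2 = (absNorm J : ℚ) := by
  rw [sq, ← cl_mul, cl_eq_cl_iff] at h
  obtain ⟨x, y, hx, hy, hxy⟩ := h
  obtain ⟨u, v, huv⟩ := Q.rep ((x : K) * (absNorm I : K) / (y : K))
  refine ⟨u, v, ?_⟩
  have h1 := Q.nm_rep u v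
  rw [← huv] at h1
  have hyK : (y : K) ≠ 0 := by
    intro h
    exact hy (RingOfIntegers.ext (by simpa using h))
  have hσy : Q.σ (y : K) ≠ 0 := by simpa using hyK
  have h2 := congrArg absNorm hxy
  rw [map_mul, map_mul, map_mul] at h2
  have hnx : (x : K) * Q.σ (x : K) = ((absNorm (span {x}) : ℕ) : K) := by
    have := congrArg (algebraMap (𝓞 K) K) (Q.nm_int x)
    simpa using this
  have hny : (y : K) * Q.σ (y : K) = ((absNorm (span {y}) : ℕ) : K) := by
    have := congrArg (algebraMap (𝓞 K) K) (Q.nm_int y)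
    simpa using this
  have h2K : ((absNorm (span {x}) : ℕ) : K) * (((absNorm I : ℕ) : K) * ((absNorm I : ℕ) : K)) =
      ((absNorm (span {y}) : ℕ) : K) * ((absNorm J : ℕ) : K) := by exact_mod_cast h2
  have h3 : ((u ^ 2 + n * v ^ 2 : ℚ) : K) = ((absNorm J : ℕ) : K) := by
    rw [← h1, map_div₀, map_mul, map_natCast]
    field_simp
    rw [← hnx, ← hny] at h2K
    linear_combination h2K
  exact_mod_cast h3

/-- Hilbert 90 for ideals -/
theorem hilb {A B : Ideal (𝓞 K)} (hA : A ≠ ⊥) (hB : B ≠ ⊥) (h : absNorm A = absNorm B) :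
    ∃ (J : Ideal (𝓞 K)), J ≠ ⊥ ∧ B * ia Q.σ J = A * J := by
  have hG : A ⊔ B ≠ ⊥ := by
    intro h0
    exact hA (le_bot_iff.1 (h0 ▸ le_sup_left))
  obtain ⟨A', hA'⟩ := Ideal.dvd_iff_le.2 (le_sup_left : A ≤ A ⊔ B)
  obtain ⟨B', hB'⟩ := Ideal.dvd_iff_le.2 (le_sup_right : B ≤ A ⊔ B)
  set G := A ⊔ B with hGdef
  have hcop : A' ⊔ B' = ⊤ := by
    have h1 : G * (A' ⊔ B') = G * ⊤ := by
      rw [Ideal.mul_sup, ← hA', ← hB', Ideal.mul_top]
    exact mul_left_cancel₀ hG h1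
  have hN : absNorm A' = absNorm B' := by
    rw [hA', hB', map_mul, map_mul] at h
    exact Nat.eq_of_mul_eq_mul_left (Nat.pos_of_ne_zero (absNorm_ne hG)) h
  have hB'0 : B' ≠ ⊥ := by
    rintro rfl
    apply hB
    rw [hB', Ideal.mul_bot]
  have h1 : A' * ia Q.σ A' = B' * ia Q.σ B' := by rw [Q.mul_ia, Q.mul_ia, hN]
  have h2 : A' ∣ ia Q.σ B' := by
    have hc : IsCoprime A' B' := Ideal.isCoprime_iff_sup_eq.2 hcop
    exact hc.dvd_of_dvd_mul_left ⟨_, h1.symm⟩
  obtain ⟨C, hC⟩ := h2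
  have h3 : C = ⊤ := by
    have h4 := congrArg absNorm hC
    rw [absNorm_ia, map_mul, hN] at h4
    have h5 : absNorm C = 1 := by
      have : absNorm B' * absNorm C = absNorm B' * 1 := by rw [← h4, mul_one]
      exact Nat.eq_of_mul_eq_mul_left (Nat.pos_of_ne_zero (absNorm_ne hB'0)) this
    exact Ideal.absNorm_eq_one_iff.1 h5
  rw [h3, Ideal.mul_top] at hC
  refine ⟨B', hB'0, ?_⟩
  rw [hC]
  conv_lhs => rw [hB']
  conv_rhs => rw [hA']
  rw [mul_assoc, mul_assoc, mul_comm B' A']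

include Q in
/-- if the norm of `P` is the norm of an element then the class of `P` is a square -/
theorem sq_of_norm {P : Ideal (𝓞 K)} (hP : P ≠ ⊥) {x y : ℚ}
    (h : x ^ 2 + (n : ℚ) * y ^ 2 = (absNorm P : ℚ)) : ∃ c : ClassGroup (𝓞 K), c ^ 2 = cl P hP := by
  -- the element with denominator
  have hm0 : x.den * y.den ≠ 0 := mul_ne_zero x.den_nz y.den_nz
  set m : ℕ := x.den * y.den with hm
  set g : 𝓞 K := ((x.num * y.den : ℤ) : 𝓞 K) + ((y.num * x.den : ℤ) : 𝓞 K) * Q.s with hg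
  have hxm : (m : ℚ) * x = (x.num * y.den : ℤ) := by
    rw [hm]; push_cast
    have := Rat.mul_den_eq_num x
    linear_combination (y.den : ℚ) * this
  have hym : (m : ℚ) * y = (y.num * x.den : ℤ) := by
    rw [hm]; push_cast
    have := Rat.mul_den_eq_num y
    linear_combination (x.den : ℚ) * this
  have hgK : (g : K) = (((m : ℚ) * x : ℚ) : K) + (((m : ℚ) * y : ℚ) : K) * (Q.s : K) := by
    rw [hxm, hym, hg]
    simp
  have hgn : absNorm (span {g}) = m ^ 2 * absNorm P := by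
    have h1 := Q.nm_rep ((m : ℚ) * x) ((m : ℚ) * y)
    rw [← hgK] at h1
    have h2 := congrArg (algebraMap (𝓞 K) K) (Q.nm_int g)
    have h3 : (g : K) * Q.σ (g : K) = ((absNorm (span {g}) : ℕ) : K) := by simpa using h2
    rw [h1] at h3
    have h4 : ((absNorm (span {g}) : ℕ) : ℚ) = (m : ℚ) ^ 2 * (absNorm P : ℚ) := by
      have h5 : ((m * x) ^ 2 + n * (m * y) ^ 2 : ℚ) = ((absNorm (span {g}) : ℕ) : ℚ) := by
        exact_mod_cast h3
      rw [← h5, ← h]; ring
    exact_mod_cast h4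
  have hP0 := absNorm_ne hP
  have hg0 : g ≠ 0 := by
    intro h0
    rw [h0] at hgn
    simp at hgn
    rcases hgn with h1 | h1
    · exact hm0 h1
    · exact hP0 h1
  have hB : span {((m : ℕ) : 𝓞 K)} * P ≠ ⊥ := mul_ne_zero (span_nat_ne hm0) hP
  obtain ⟨J, hJ, hJe⟩ := Q.hilb (span_ne_bot hg0) hB (by
    rw [hgn, map_mul, absNorm_nat Q])
  refine ⟨cl J hJ, ?_⟩
  have hJσ := ia_ne_bot Q.σ hJ
  have h1 := cl_congr' hJe (mul_ne_zero hB hJσ) (mul_ne_zero (span_ne_bot hg0) hJ)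
  rw [cl_mul _ _ hB hJσ, cl_mul _ _ (span_nat_ne hm0) hP, cl_mul _ _ (span_ne_bot hg0) hJ,
    cl_span (by exact_mod_cast hm0), cl_span hg0, one_mul, one_mul] at h1
  have h2 := Q.cl_ia hJ
  calc cl J hJ ^ 2 = (cl P hP * cl (ia Q.σ J) hJσ) * cl J hJ := by rw [h1, sq]
    _ = cl P hP * (cl J hJ * cl (ia Q.σ J) hJσ) := by rw [mul_assoc, mul_comm (cl (ia Q.σ J) hJσ)]
    _ = cl P hP := by rw [h2, mul_one]

include Q in
/-- the principal products of ramified primes -/
theorem principal_root (hn : Squarefree n) (h1n : 1 < n) (h3 : n ≠ 3) {D : Finset ℕ} (hD : D ⊆ Rn n)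
    {P : Ideal (𝓞 K)} (hP : P ^ 2 = span {((∏ p ∈ D, p : ℕ) : 𝓞 K)}) {α : 𝓞 K} (hα : P = span {α}) :
    D = ∅ ∨ D = n.primeFactors := by
  set d : ℕ := ∏ p ∈ D, p with hd
  have hd0 : d ≠ 0 := prod_ne hD
  have hsf : Squarefree d := prod_sqf hD
  have hpf : d.primeFactors = D := prod_pf hD
  have h1 : α ^ 2 = (d : 𝓞 K) ∨ α ^ 2 = -(d : 𝓞 K) := by
    rw [hα, Ideal.span_singleton_pow, Ideal.span_singleton_eq_span_singleton] at hP
    obtain ⟨e, he⟩ := hP
    rcases Q.unit_eq hn h1n h3 e with h | h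
    · left; rw [← he, h, mul_one]
    · right; rw [← he, h]; ring
  have h2 : (ra Q.σ α) ^ 2 = α ^ 2 := by
    rw [← map_pow]
    rcases h1 with h | h <;> rw [h] <;> simp
  obtain ⟨u, v, huv⟩ := Q.rep (α : K)
  have hs0 : (Q.s : K) ≠ 0 := by
    intro h
    have := Q.ssK
    rw [h] at this
    have h4 : (n : K) = 0 := by linear_combination this
    have : n = 0 := by exact_mod_cast h4
    omega
  have hσα : Q.σ (α : K) = (u : K) - (v : K) * (Q.s : K) := by rw [huv, Q.σ_rep]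
  have h1K : ((α : K) ^ 2 = ((d : ℚ) : K) ∨ (α : K) ^ 2 = ((-(d : ℚ) : ℚ) : K)) := by
    rcases h1 with h | h
    · left
      have := congrArg (algebraMap (𝓞 K) K) h
      simpa using this
    · right
      have := congrArg (algebraMap (𝓞 K) K) h
      simpa using this
  rcases sq_eq_sq_iff_eq_or_eq_neg.1 h2 with h | h
  · -- α is rational
    left
    have hK : Q.σ (α : K) = (α : K) := by
      have := congrArg (algebraMap (𝓞 K) K) h
      exact this
    have hv : v = 0 := by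
      rw [hσα, huv] at hK
      have h4 : (v : K) * (Q.s : K) = 0 := by linear_combination (-(1 / 2 : K)) * hK
      rcases mul_eq_zero.1 h4 with h5 | h5
      · exact_mod_cast h5
      · exact absurd h5 hs0
    rw [hv] at huv
    have hu : (α : K) = (u : K) := by rw [huv]; simp
    obtain ⟨m, hm, -⟩ := int_of_rat hu
    have h4 : m.natAbs ^ 2 = d := by
      have h5 : m ^ 2 = (d : ℤ) := by
        rcases h1 with h | h
        · rw [hm] at h; exact_mod_cast h
        · exfalso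
          rw [hm] at h
          have h6 : m ^ 2 = -(d : ℤ) := by
            have h8 : ((m ^ 2 : ℤ) : 𝓞 K) = ((-(d : ℤ) : ℤ) : 𝓞 K) := by push_cast; exact h
            exact_mod_cast h8
          have h7 : (0 : ℤ) < d := by exact_mod_cast Nat.pos_of_ne_zero hd0
          nlinarith [sq_nonneg m]
      have h6 : ((m.natAbs ^ 2 : ℕ) : ℤ) = (d : ℤ) := by
        push_cast; rw [sq_abs]; exact h5
      exact_mod_cast h6
    have h5 : m.natAbs * m.natAbs ∣ d := ⟨1, by rw [← h4]; ring⟩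
    have h6 := Nat.isUnit_iff.1 (hsf _ h5)
    rw [← hpf, ← h4, h6]
    simp
  · right
    have hK : Q.σ (α : K) = -(α : K) := by
      have := congrArg (algebraMap (𝓞 K) K) h
      simpa using this
    have hu : u = 0 := by
      rw [hσα, huv] at hK
      have h4 : (u : K) = 0 := by linear_combination (1 / 2 : K) * hK
      exact_mod_cast h4
    rw [hu] at huv
    have hα2 : (α : K) ^ 2 = ((-(n * v ^ 2) : ℚ) : K) := by
      rw [huv]
      have := Q.ssK
      push_cast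
      linear_combination (v : K) ^ 2 * this
    have h4 : (n : ℚ) * v ^ 2 = d := by
      rw [hα2] at h1K
      have hp : (0 : ℚ) < d := by exact_mod_cast Nat.pos_of_ne_zero hd0
      rcases h1K with h5 | h5
      · exfalso
        have h6 : (-(n * v ^ 2) : ℚ) = d := by exact_mod_cast h5
        have h7 : (0 : ℚ) ≤ n * v ^ 2 := by positivity
        linarith
      · have h6 : (-(n * v ^ 2) : ℚ) = -d := by exact_mod_cast h5
        linarith
    have h5 : IsSquare ((n * d : ℕ) : ℚ) := ⟨n * v, by push_cast; rw [← h4]; ring⟩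
    rw [Rat.isSquare_natCast_iff] at h5
    obtain ⟨k, hk⟩ := h5
    rw [← hpf]
    have key : ∀ a b : ℕ, Squarefree a → a * b = k * k → b ≠ 0 → ∀ p : ℕ, p.Prime → p ∣ a → p ∣ b := by
      intro a b ha hab hb p hp hpa
      have h6 : p ∣ k := by
        have : p ∣ k * k := by rw [← hab]; exact Dvd.dvd.mul_right hpa b
        rcases (Nat.Prime.dvd_mul hp).1 this with h | h <;> exact h
      obtain ⟨j, hj⟩ := h6
      obtain ⟨a', ha'⟩ := hpa
      have h7 : ¬ p ∣ a' := by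
        rintro ⟨a'', ha''⟩
        have : p * p ∣ a := ⟨a'', by rw [ha', ha'']; ring⟩
        exact hp.one_lt.ne' (Nat.isUnit_iff.1 (ha p this))
      have h8 : p ∣ a' * b := by
        refine ⟨j * j, ?_⟩
        have h9 : p * (a' * b) = p * (p * (j * j)) := by
          calc p * (a' * b) = a * b := by rw [ha']; ring
            _ = k * k := hab
            _ = _ := by rw [hj]; ring
        exact Nat.eq_of_mul_eq_mul_left hp.pos h9
      rcases (Nat.Prime.dvd_mul hp).1 h8 with h | h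
      · exact absurd h h7
      · exact h
    have hn0 : n ≠ 0 := by omega
    ext p
    rw [Nat.mem_primeFactors, Nat.mem_primeFactors]
    constructor
    · rintro ⟨hp, hpd, -⟩
      exact ⟨hp, key d n hsf (by rw [mul_comm]; exact hk) hn0 p hp hpd, hn0⟩
    · rintro ⟨hp, hpn, -⟩
      exact ⟨hp, key n d hn hk hd0 p hp hpn, hd0⟩

include Q in
theorem main (hn : Squarefree n) (h1n : 1 < n) (h3 : n ≠ 3) :
    (∀ c : ClassGroup (𝓞 K), c ^ 4 = 1 → c ^ 2 = 1) ↔ NoNorm n := by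
  have hn0 : n ≠ 0 := by omega
  constructor
  · rintro h D hD ⟨x, y, hxy⟩
    obtain ⟨P, hP⟩ := Q.exists_roots hn hD
    have hP0 : P ≠ ⊥ := root_ne (prod_ne hD) hP
    have hPN : absNorm P = ∏ p ∈ D, p := absNorm_root Q hP
    rw [← hPN] at hxy
    obtain ⟨c, hc⟩ := Q.sq_of_norm hP0 hxy
    have h4 : c ^ 4 = 1 := by
      have : c ^ 4 = (c ^ 2) ^ 2 := by rw [← pow_mul]
      rw [this, hc, sq, ← cl_mul, cl_eq_one_iff]
      refine ⟨((∏ p ∈ D, p : ℕ) : 𝓞 K), by exact_mod_cast prod_ne hD, ?_⟩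
      rw [← sq, hP]
    have h5 := h c h4
    rw [hc, cl_eq_one_iff] at h5
    obtain ⟨α, -, hα⟩ := h5
    exact Q.principal_root hn h1n h3 hD hP hα
  · intro h c hc
    have h1 : (c ^ 2) ^ 2 = 1 := by rw [← pow_mul]; exact hc
    obtain ⟨D, J, hJ0, hD, hJ, hcJ⟩ := Q.order_two hn0 h1
    obtain ⟨I, hI, rfl⟩ := cl_surj c
    have h2 := Q.norm_of_sq hI hJ0 hcJ
    rw [absNorm_root Q hJ] at h2
    rw [hcJ, cl_eq_one_iff]
    rcases h D hD h2 with h4 | h4
    · refine ⟨1, one_ne_zero, ?_⟩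
      apply ideal_sq_inj
      rw [hJ, h4, Ideal.span_singleton_pow]
      simp
    · have hs0 : Q.s ≠ 0 := by
        intro h
        have := Q.ss
        rw [h, mul_zero] at this
        have h5 : (n : 𝓞 K) = 0 := by linear_combination this
        exact hn0 (by exact_mod_cast h5)
      refine ⟨Q.s, hs0, ?_⟩
      apply ideal_sq_inj
      rw [hJ, h4, Nat.prod_primeFactors_of_squarefree hn, Ideal.span_singleton_pow, sq, Q.ss,
        Ideal.span_singleton_neg]

end Qd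

theorem t_XR1 : S_XR1 := by
  intro n hn h3 K _ _ hK ⟨a, ha⟩
  obtain ⟨Q⟩ := exists_qd hK (by omega : 0 < n) (a := a) (by rw [ha]; push_cast; rfl)
  exact Q.main hn (by omega) (by omega)

/-- `ℚ(√-2)` -/
theorem t_XR12 (K : Type) [Field K] [NumberField K] (hK : Module.finrank ℚ K = 2)
    (h : ∃ a : K, a ^ 2 = ((-2 : ℤ) : K)) (c : ClassGroup (𝓞 K)) (hc : c ^ 4 = 1) : c ^ 2 = 1 := by
  obtain ⟨a, ha⟩ := h
  obtain ⟨Q⟩ := exists_qd hK (by norm_num : 0 < 2) (a := a) (by rw [ha]; push_cast; rfl)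
  refine (Q.main Nat.prime_two.squarefree (by norm_num) (by norm_num)).2 ?_ c hc
  intro D hD _
  have h1 : Rn 2 = {2} := by
    unfold Rn
    rw [if_neg (by norm_num), Nat.Prime.primeFactors Nat.prime_two]
  rw [Nat.Prime.primeFactors Nat.prime_two]
  rw [h1] at hD
  exact Finset.subset_singleton_iff.1 hD

end Pool.Agent.XR
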