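import Pool.Agent.XR.Defs
import Pool.Agent.XW.Defs

/-!
# Project XR: the Rédei kernel and the class group (statements of XR-2 and XR-3)

XR-1 (ideal theory of imaginary quadratic fields) is in `Pool/Agent/XR/Defs.lean`; XR-2 (`S_XR2b`,
`S_XR2c`) is Legendre's theorem; XR-3 (`S_XR3a`, `S_XR3b`) is the assembly.
-/

set_option autoImplicit false

namespace Pool.Agent.XR

open Finset
open Pool.Agent.Z700 (pr)

/-- the product of the primes of `D` is the norm of an element of `ℚ(√-n)` -/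
def Nm (n : ℕ) (D : Finset ℕ) : Prop :=
  ∃ x y : ℚ, x ^ 2 + (n : ℚ) * y ^ 2 = ((∏ p ∈ D, p : ℕ) : ℚ)

/-- XR-1 for `n = 2` -/
def S_XR12 : Prop := ∀ (K : Type) [Field K] [NumberField K],
  Module.finrank ℚ K = 2 → (∃ a : K, a ^ 2 = (((-2 : ℤ)) : K)) →
  ∀ c : ClassGroup (NumberField.RingOfIntegers K), c ^ 4 = 1 → c ^ 2 = 1

/-- XR-2, odd case -/
def S_XR2b : Prop := ∀ N : Finset ℕ, (∀ p ∈ N, p.Prime ∧ p ≠ 2) → pr N % 4 = 3 → ∀ D ⊆ N,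
  (Nm (pr N) D ↔ ∀ p ∈ N, XV.gen N D p = 1)

/-- XR-2, even case -/
def S_XR2c : Prop := ∀ δ : ℤ, XW.Dt δ → ∀ N : Finset ℕ, (∀ p ∈ N, p.Prime) → 2 ∈ N → XW.sg δ N = -1 →
  ∀ D ⊆ N, (Nm (XW.pe δ N / 4) D ↔ ∀ p ∈ N.erase 2, XW.gen δ N D p = 1)

/-- XR-3, odd case -/
def S_XR3a : Prop := ∀ N : Finset ℕ, (∀ p ∈ N, p.Prime ∧ p ≠ 2) → pr N % 4 = 3 → 3 < pr N →
  (XV.Kr N ↔ NoFour (-(pr N : ℤ)))

/-- XR-3, even case -/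
def S_XR3b : Prop := ∀ δ : ℤ, XW.Dt δ → ∀ N : Finset ℕ, (∀ p ∈ N, p.Prime) → 2 ∈ N →
  XW.sg δ N = -1 → ¬ XW.Xi δ N → (XW.Kr δ N ↔ NoFour (-((XW.pe δ N / 4 : ℕ) : ℤ)))

end Pool.Agent.XR
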