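import Pool.Agent.XR.Cl

/-!
# Project XR: existence of the field `ℚ(√-n)` and the form with all fields
-/

set_option autoImplicit false
open NumberField Polynomial

namespace Pool.Agent.XR

theorem not_square_neg {n : ℕ} (hn : 0 < n) : ¬ IsSquare (-(n : ℚ)) := by
  rintro ⟨r, hr⟩
  have h1 : (0 : ℚ) < n := by exact_mod_cast hn
  nlinarith [mul_self_nonneg r]

/-- the quadratic field exists -/
theorem exists_field {n : ℕ} (hn : 0 < n) : ∃ (K : Type) (_ : Field K) (_ : NumberField K),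
    Module.finrank ℚ K = 2 ∧ ∃ a : K, a ^ 2 = ((-n : ℤ) : K) := by
  have hirr : Irreducible (X ^ 2 - C (-(n : ℚ)) : ℚ[X]) :=
    X_pow_sub_C_irreducible_of_prime Nat.prime_two (fun b hb => not_square_neg hn ⟨b, by rw [← hb]; ring⟩)
  have hf : Fact (Irreducible (X ^ 2 - C (-(n : ℚ)) : ℚ[X])) := ⟨hirr⟩
  have h0 : (X ^ 2 - C (-(n : ℚ)) : ℚ[X]) ≠ 0 := hirr.ne_zero
  have hfd : FiniteDimensional ℚ (AdjoinRoot (X ^ 2 - C (-(n : ℚ)) : ℚ[X])) :=
    (AdjoinRoot.powerBasis h0).finite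
  have hc : CharZero (AdjoinRoot (X ^ 2 - C (-(n : ℚ)) : ℚ[X])) :=
    charZero_of_injective_algebraMap (algebraMap ℚ _).injective
  refine ⟨AdjoinRoot (X ^ 2 - C (-(n : ℚ)) : ℚ[X]), inferInstance, ⟨⟩, ?_, ?_⟩
  · have h1 := (AdjoinRoot.powerBasis h0).finrank
    rw [AdjoinRoot.powerBasis_dim, natDegree_X_pow_sub_C] at h1
    convert h1 using 1
  · refine ⟨AdjoinRoot.root _, ?_⟩
    have h1 := AdjoinRoot.eval₂_root (X ^ 2 - C (-(n : ℚ)) : ℚ[X])
    rw [eval₂_sub, eval₂_pow, eval₂_X, eval₂_C, sub_eq_zero] at h1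
    rw [h1]
    push_cast
    simp

theorem t_XR1b : S_XR1b := by
  intro n hn h3
  constructor
  · intro h
    obtain ⟨K, hF, hN, hK, ha⟩ := exists_field (by omega : 0 < n)
    exact (t_XR1 n hn h3 K hK ha).1 (h K hK ha)
  · intro h K _ _ hK ha
    exact (t_XR1 n hn h3 K hK ha).2 h

/-- the property does not depend on the field -/
theorem noFour_iff {n : ℕ} (hn : Squarefree n) (h3 : 3 < n) (K : Type) [Field K] [NumberField K]
    (hK : Module.finrank ℚ K = 2) (ha : ∃ a : K, a ^ 2 = ((-n : ℤ) : K)) :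
    NoFour (-(n : ℤ)) ↔ ∀ c : ClassGroup (𝓞 K), c ^ 4 = 1 → c ^ 2 = 1 :=
  (t_XR1b n hn h3).trans (t_XR1 n hn h3 K hK ha).symm

end Pool.Agent.XR
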