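import Pool.Agent.XR.Fin
import Pool.Agent.XR.Ex
import Pool.Agent.XR.Leg

/-!
# Project XR: the final statements
-/

set_option autoImplicit false

namespace Pool.Agent.XR

theorem t_XR2b : S_XR2b := fun _ hN _ _ hD => odd_case hN hD

theorem t_XR2c : S_XR2c := fun _ hδ _ hN h2 _ _ hD => even_case hδ h2 hN hD

theorem f_XR12 : S_XR12 := fun K _ _ hK ha => t_XR12 K hK ha

/-- the Rédei kernel and the class group, odd discriminants -/
theorem f_XR3a : S_XR3a := t_XR3a t_XR1b t_XR2b

/-- the Rédei kernel and the class group, even discriminants -/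
theorem f_XR3b : S_XR3b := t_XR3b t_XR1b f_XR12 t_XR2c

end Pool.Agent.XR
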