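import Mathlib

/-!
# Project XR: the Rédei kernel and the elements of order four of the class group

`NoFour D`: the class group of `ℚ(√D)` has no element of order `4`.
-/

set_option autoImplicit false

namespace Pool.Agent.XR

/-- the class group of the quadratic field `ℚ(√D)` has no element of order `4` -/
def NoFour (D : ℤ) : Prop := ∀ (K : Type) [Field K] [NumberField K], Module.finrank ℚ K = 2 →
  (∃ a : K, a ^ 2 = (D : K)) →
  ∀ c : ClassGroup (NumberField.RingOfIntegers K), c ^ 4 = 1 → c ^ 2 = 1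

/-- the primes which ramify in `ℚ(√-n)` (`n` squarefree) -/
def Rn (n : ℕ) : Finset ℕ := if n % 4 = 1 then insert 2 n.primeFactors else n.primeFactors

/-- no nontrivial product of ramified primes is a norm -/
def NoNorm (n : ℕ) : Prop := ∀ D ⊆ Rn n,
  (∃ x y : ℚ, x ^ 2 + (n : ℚ) * y ^ 2 = ((∏ p ∈ D, p : ℕ) : ℚ)) → D = ∅ ∨ D = n.primeFactors

/-- XR-1 (fixed field) -/
def S_XR1 : Prop := ∀ n : ℕ, Squarefree n → 3 < n → ∀ (K : Type) [Field K] [NumberField K],
  Module.finrank ℚ K = 2 → (∃ a : K, a ^ 2 = ((-n : ℤ) : K)) →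
  ((∀ c : ClassGroup (NumberField.RingOfIntegers K), c ^ 4 = 1 → c ^ 2 = 1) ↔ NoNorm n)

/-- XR-1 (all the fields) -/
def S_XR1b : Prop := ∀ n : ℕ, Squarefree n → 3 < n → (NoFour (-(n : ℤ)) ↔ NoNorm n)

end Pool.Agent.XR
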