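import Pool.Agent.XR.Stm
import Pool.Agent.XW.Odd

/-!
# Project XR: the Rédei kernel and the class group (assembly, XR-3)
-/

set_option autoImplicit false

namespace Pool.Agent.XR

open Finset
open Pool.Agent.Z700 (pr)

/-! ### products of primes -/

theorem pf_pr {N : Finset ℕ} (hN : ∀ p ∈ N, p.Prime) : (pr N).primeFactors = N :=
  Nat.primeFactors_prod hN

theorem sqf_pr {N : Finset ℕ} (hN : ∀ p ∈ N, p.Prime) : Squarefree (pr N) := by
  unfold pr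
  refine (Finset.squarefree_prod_of_pairwise_isCoprime (s := N) (f := fun p : ℕ => (p : ℕ)) ?_ ?_)
  · intro p hp q hq hpq
    exact Nat.coprime_iff_isRelPrime.1 ((Nat.coprime_primes (hN p hp) (hN q hq)).2 hpq)
  · intro p hp
    exact (hN p hp).prime.squarefree

theorem pr_ins {N : Finset ℕ} (h : 2 ∈ N) : pr N = 2 * pr (N.erase 2) := by
  unfold pr
  exact (mul_prod_erase N (fun p => p) h).symm

theorem pe_ins {δ : ℤ} {N : Finset ℕ} (h : 2 ∈ N) : XW.pe δ N = δ.natAbs * pr (N.erase 2) := by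
  have e : XW.pe δ (N.erase 2) = pr (N.erase 2) := XW.Od.pe_odd (by simp)
  rw [← e]
  unfold XW.pe
  rw [← mul_prod_erase N _ h]
  simp [XW.md]

/-! ### the data of the even case -/

theorem pe4 {N : Finset ℕ} (h : 2 ∈ N) : XW.pe (-4) N / 4 = pr (N.erase 2) := by
  rw [pe_ins h]
  have : (-4 : ℤ).natAbs = 4 := rfl
  rw [this]
  omega

theorem pe8 {δ : ℤ} {N : Finset ℕ} (h : 2 ∈ N) (hδ : δ = 8 ∨ δ = -8) : XW.pe δ N / 4 = pr N := by
  rw [pe_ins h, pr_ins h]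
  have : δ.natAbs = 8 := by rcases hδ with h | h <;> subst h <;> rfl
  rw [this]
  omega

theorem js_m1 {N : Finset ℕ} (hN : ∀ p ∈ N, p.Prime) (h2 : 2 ∉ N) (h : jacobiSym (-1) (pr N) = 1) :
    pr N % 4 = 1 := by
  have ho : pr N % 2 = 1 := by
    unfold pr
    refine Nat.odd_iff.1 (prod_induction _ Odd (fun a b ha hb => ha.mul hb) odd_one fun p hp => ?_)
    exact (hN p hp).odd_of_ne_two fun e => h2 (e ▸ hp)
  rw [jacobiSym.at_neg_one (Nat.odd_iff.2 ho)] at h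
  by_contra h1
  have h3 : pr N % 4 = 3 := by omega
  rw [ZMod.χ₄_nat_three_mod_four h3] at h
  norm_num at h

theorem md4 {N : Finset ℕ} (hN : ∀ p ∈ N, p.Prime) (h : 2 ∈ N) (hs : XW.sg (-4) N = -1) :
    pr (N.erase 2) % 4 = 1 := by
  refine js_m1 (fun p hp => hN p (mem_of_mem_erase hp)) (by simp) ?_
  have hN' : ∀ p ∈ N.erase 2, p ≠ 0 := fun p hp => (hN p (mem_of_mem_erase hp)).ne_zero
  rw [← XW.Od.prod_js (-1) _ hN']
  unfold XW.sg XW.ch at hs
  rw [← mul_prod_erase N _ h] at hs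
  have e1 : XW.sy (-4) 2 (-1) = -1 := by
    unfold XW.sy XW.c2
    simp only [if_true]
    decide
  have e2 : ∏ p ∈ N.erase 2, XW.sy (-4) p (-1) = ∏ p ∈ N.erase 2, jacobiSym (-1) p :=
    prod_congr rfl fun p hp => if_neg (ne_of_mem_erase hp)
  rw [e1, e2] at hs
  linarith

/-! ### the assembly -/

/-- the property of the class group for one field -/
def NF (K : Type) [Field K] [NumberField K] : Prop :=
  ∀ c : ClassGroup (NumberField.RingOfIntegers K), c ^ 4 = 1 → c ^ 2 = 1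

theorem noNorm_two : NoNorm 2 := by
  intro D hD _
  have e : Rn 2 = {2} := by
    rw [Rn, if_neg (by norm_num)]
    exact Nat.prime_two.primeFactors
  rw [e] at hD
  rw [Nat.prime_two.primeFactors]
  exact subset_singleton_iff.1 hD

theorem fld (h1 : S_XR1) (h12 : S_XR12) {n : ℕ} (hsq : Squarefree n) (hn : 1 < n) (hn3 : n ≠ 3)
    (K : Type) [Field K] [NumberField K] (hK : Module.finrank ℚ K = 2)
    (ha : ∃ a : K, a ^ 2 = ((-(n : ℤ) : ℤ) : K)) : NF K ↔ NoNorm n := by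
  by_cases h2 : n = 2
  · subst h2
    exact ⟨fun _ => noNorm_two, fun _ => h12 K hK ha⟩
  · exact h1 n hsq (by omega) K hK ha

theorem all (h1 : S_XR1b) (h12 : S_XR12) {n : ℕ} (hsq : Squarefree n) (hn : 1 < n) (hn3 : n ≠ 3) :
    NoFour (-(n : ℤ)) ↔ NoNorm n := by
  by_cases h2 : n = 2
  · subst h2
    exact ⟨fun _ => noNorm_two, fun _ K _ _ hK ha => h12 K hK ha⟩
  · exact h1 n hsq (by omega)

/-- the comparison of the two kernels -/
theorem ker {n : ℕ} {N F : Finset ℕ} {g : Finset ℕ → ℕ → ℤ} {S : Finset ℕ} (hR : Rn n = N)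
    (hF : n.primeFactors = F) (hg : ∀ D ⊆ N, (Nm n D ↔ ∀ p ∈ S, g D p = 1)) :
    (∀ D ⊆ N, (∀ p ∈ S, g D p = 1) → D = ∅ ∨ D = F) ↔ NoNorm n := by
  rw [NoNorm, hR, hF]
  exact ⟨fun h D hD hN => h D hD ((hg D hD).1 hN), fun h D hD hN => h D hD ((hg D hD).2 hN)⟩

/-- the data of the odd case -/
theorem odd_ker (h2 : S_XR2b) (N : Finset ℕ) (hN : ∀ p ∈ N, p.Prime ∧ p ≠ 2) (h4 : pr N % 4 = 3) :
    XV.Kr N ↔ NoNorm (pr N) := by
  have hp : ∀ p ∈ N, p.Prime := fun p h => (hN p h).1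
  exact ker (by rw [Rn, if_neg (by omega), pf_pr hp]) (pf_pr hp) (h2 N hN h4)

/-- XR-3, odd case, with a fixed field -/
theorem odd_K (h1 : S_XR1) (h2 : S_XR2b) (N : Finset ℕ) (hN : ∀ p ∈ N, p.Prime ∧ p ≠ 2)
    (h4 : pr N % 4 = 3) (h3 : 3 < pr N) (K : Type) [Field K] [NumberField K]
    (hK : Module.finrank ℚ K = 2) (ha : ∃ a : K, a ^ 2 = ((-(pr N : ℤ) : ℤ) : K)) :
    XV.Kr N ↔ NF K :=
  (odd_ker h2 N hN h4).trans (h1 _ (sqf_pr fun p h => (hN p h).1) h3 K hK ha).symm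

/-- XR-3, odd case -/
theorem t_XR3a (h1 : S_XR1b) (h2 : S_XR2b) : S_XR3a := fun N hN h4 h3 =>
  (odd_ker h2 N hN h4).trans (h1 _ (sqf_pr fun p h => (hN p h).1) h3).symm

/-- the data of the even case -/
theorem ev_data {δ : ℤ} (hδ : XW.Dt δ) {N : Finset ℕ} (hN : ∀ p ∈ N, p.Prime) (h : 2 ∈ N)
    (hs : XW.sg δ N = -1) (hX : ¬ XW.Xi δ N) :
    Squarefree (XW.pe δ N / 4) ∧ 1 < XW.pe δ N / 4 ∧ XW.pe δ N / 4 ≠ 3 ∧ Rn (XW.pe δ N / 4) = N ∧
      (XW.pe δ N / 4).primeFactors = (if δ = -4 then N.erase 2 else N) := by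
  have hN' : ∀ p ∈ N.erase 2, p.Prime := fun p hp => hN p (mem_of_mem_erase hp)
  by_cases h4 : δ = -4
  · subst h4
    have e1 := md4 hN h hs
    rw [pe4 h, if_pos rfl]
    refine ⟨sqf_pr hN', ?_, by omega, ?_, pf_pr hN'⟩
    · have : (N.erase 2).Nonempty := by
        rw [nonempty_iff_ne_empty]
        intro e
        refine hX ⟨rfl, ?_⟩
        rw [← insert_erase h, e]
        rfl
      obtain ⟨p, hp⟩ := this
      have h0 : 0 < pr (N.erase 2) := prod_pos fun q hq => (hN' q hq).pos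
      have h5 : p ∣ pr (N.erase 2) := dvd_prod_of_mem _ hp
      exact lt_of_lt_of_le (hN' p hp).one_lt (Nat.le_of_dvd h0 h5)
    · rw [Rn, if_pos e1, pf_pr hN', insert_erase h]
  · have h8 : δ = 8 ∨ δ = -8 := by
      rcases hδ with h | h | h
      · exact absurd h h4
      · exact Or.inl h
      · exact Or.inr h
    rw [pe8 h h8, if_neg h4]
    have e := pr_ins h
    have h0 : 0 < pr (N.erase 2) := prod_pos fun q hq => (hN' q hq).pos
    refine ⟨sqf_pr hN, by omega, by omega, ?_, pf_pr hN⟩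
    rw [Rn, if_neg (by omega), pf_pr hN]

/-- the kernel in the even case -/
theorem even_ker (h2 : S_XR2c) {δ : ℤ} (hδ : XW.Dt δ) (N : Finset ℕ)
    (hN : ∀ p ∈ N, p.Prime) (h : 2 ∈ N) (hs : XW.sg δ N = -1) (hX : ¬ XW.Xi δ N) :
    XW.Kr δ N ↔ NoNorm (XW.pe δ N / 4) := by
  obtain ⟨a1, a2, a3, a4, a5⟩ := ev_data hδ hN h hs hX
  exact ker a4 a5 (h2 δ hδ N hN h hs)

/-- XR-3, even case, with a fixed field -/
theorem even_K (h1 : S_XR1) (h12 : S_XR12) (h2 : S_XR2c) {δ : ℤ} (hδ : XW.Dt δ) (N : Finset ℕ)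
    (hN : ∀ p ∈ N, p.Prime) (h : 2 ∈ N) (hs : XW.sg δ N = -1) (hX : ¬ XW.Xi δ N)
    (K : Type) [Field K] [NumberField K] (hK : Module.finrank ℚ K = 2)
    (ha : ∃ a : K, a ^ 2 = ((-((XW.pe δ N / 4 : ℕ) : ℤ) : ℤ) : K)) : XW.Kr δ N ↔ NF K := by
  obtain ⟨a1, a2, a3, a4, a5⟩ := ev_data hδ hN h hs hX
  exact (even_ker h2 hδ N hN h hs hX).trans (fld h1 h12 a1 a2 a3 K hK ha).symm

/-- XR-3, even case -/
theorem t_XR3b (h1 : S_XR1b) (h12 : S_XR12) (h2 : S_XR2c) : S_XR3b := by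
  intro δ hδ N hN h hs hX
  obtain ⟨a1, a2, a3, a4, a5⟩ := ev_data hδ hN h hs hX
  exact (even_ker h2 hδ N hN h hs hX).trans (all h1 h12 a1 a2 a3).symm

end Pool.Agent.XR
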