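import Mathlib

/-!
# Legendre's theorem

Project XR (helper73).  `a x² + b y² = c z²` for pairwise coprime squarefree positive `a, b, c`.
-/

set_option autoImplicit false

namespace Pool.Agent.XR

namespace Leg

theorem sq_crt (c : ℤ) {n : ℕ} : Squarefree n →
    (∀ p : ℕ, p.Prime → p ∣ n → ∃ s : ℤ, (p : ℤ) ∣ s ^ 2 - c) →
    ∃ s : ℤ, (n : ℤ) ∣ s ^ 2 - c := by
  induction n using induction_on_primes with
  | zero => intro h; exact absurd h not_squarefree_zero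
  | one => intro _ _; exact ⟨0, by simp⟩
  | prime_mul p a hp ih =>
    intro hsf h
    obtain ⟨hcop, -, hsa⟩ := Nat.squarefree_mul_iff.1 hsf
    obtain ⟨s2, h2⟩ := ih hsa fun q hq hqa => h q hq (hqa.mul_left p)
    obtain ⟨s1, h1⟩ := h p hp (dvd_mul_right p a)
    obtain ⟨u, v, huv⟩ : IsCoprime (p : ℤ) (a : ℤ) := Nat.isCoprime_iff_coprime.2 hcop
    refine ⟨s1 * (v * a) + s2 * (u * p), ?_⟩
    push_cast
    have hc : IsCoprime (p : ℤ) (a : ℤ) := ⟨u, v, huv⟩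
    refine hc.mul_dvd ?_ ?_
    · have e : s1 * (v * a) + s2 * (u * p) = s1 + p * (u * (s2 - s1)) := by
        linear_combination s1 * huv
      rw [e]
      have : (s1 + p * (u * (s2 - s1))) ^ 2 - c = (s1 ^ 2 - c)
        + p * (2 * s1 * (u * (s2 - s1)) + p * (u * (s2 - s1)) ^ 2) := by ring
      rw [this]
      exact dvd_add h1 (dvd_mul_right _ _)
    · have e : s1 * (v * a) + s2 * (u * p) = s2 + a * (v * (s1 - s2)) := by
        linear_combination s2 * huv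
      rw [e]
      have : (s2 + a * (v * (s1 - s2))) ^ 2 - c = (s2 ^ 2 - c)
        + a * (2 * s2 * (v * (s1 - s2)) + a * (v * (s1 - s2)) ^ 2) := by ring
      rw [this]
      exact dvd_add h2 (dvd_mul_right _ _)

theorem sq_lift (c : ℤ) {p : ℕ} [NeZero p] (h : IsSquare (c : ZMod p)) :
    ∃ s : ℤ, (p : ℤ) ∣ s ^ 2 - c := by
  obtain ⟨w, hw⟩ := h
  refine ⟨(w.val : ℤ), ?_⟩
  rw [← ZMod.intCast_zmod_eq_zero_iff_dvd]
  push_cast
  rw [ZMod.natCast_val, ZMod.cast_id', id, hw]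
  ring

theorem sq_ex (c : ℤ) {n : ℕ} (hn : Squarefree n)
    (h : ∀ p : ℕ, p.Prime → p ∣ n → IsSquare (c : ZMod p)) : ∃ s : ℤ, (n : ℤ) ∣ s ^ 2 - c :=
  sq_crt c hn fun p hp hpn => by
    have : NeZero p := ⟨hp.ne_zero⟩
    exact sq_lift c (h p hp hpn)

/-- a squarefree product of coprime numbers which is a square is trivial -/
theorem sq_triv {a b : ℕ} (ha : Squarefree a) (hb : Squarefree b) (hab : a.Coprime b) {z : ℤ}
    (h : z ^ 2 = a * b) : a = 1 ∧ b = 1 := by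
  have hs : Squarefree (a * b) := (Nat.squarefree_mul_iff).2 ⟨hab, ha, hb⟩
  have h1 : z.natAbs * z.natAbs = a * b := by
    have h2 : (z.natAbs : ℤ) * z.natAbs = a * b := by
      rw [← h, Int.natCast_natAbs, abs_mul_abs_self]
      ring
    exact_mod_cast h2
  have h2 : IsUnit z.natAbs := hs _ (by rw [h1])
  have h3 : z.natAbs = 1 := Nat.isUnit_iff.1 h2
  rw [h3] at h1
  exact ⟨Nat.eq_one_of_mul_eq_one_right h1.symm, Nat.eq_one_of_mul_eq_one_left h1.symm⟩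

theorem sqb (n : ℕ) (v : ℤ) (hv : |v| ≤ Nat.sqrt n) : v ^ 2 ≤ n := by
  have e := Nat.sqrt_le n
  have e' : (Nat.sqrt n : ℤ) * Nat.sqrt n ≤ n := by exact_mod_cast e
  calc v ^ 2 = |v| * |v| := by rw [abs_mul_abs_self]; ring
    _ ≤ (Nat.sqrt n : ℤ) * Nat.sqrt n := mul_le_mul hv hv (abs_nonneg _) (by positivity)
    _ ≤ n := e'

end Leg

/-- **Legendre's theorem** -/
theorem legendre {a b c : ℕ} (ha : Squarefree a) (hb : Squarefree b) (hc : Squarefree c)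
    (hab : a.Coprime b) (hac : a.Coprime c) (hbc : b.Coprime c)
    (h1 : ∀ p : ℕ, p.Prime → p ∣ a → IsSquare ((b * c : ℤ) : ZMod p))
    (h2 : ∀ p : ℕ, p.Prime → p ∣ b → IsSquare ((a * c : ℤ) : ZMod p))
    (h3 : ∀ p : ℕ, p.Prime → p ∣ c → IsSquare ((-(a * b) : ℤ) : ZMod p)) :
    ∃ x y z : ℤ, ¬ (x = 0 ∧ y = 0 ∧ z = 0) ∧ (a : ℤ) * x ^ 2 + b * y ^ 2 = c * z ^ 2 := by
  have ha0 : a ≠ 0 := ha.ne_zero
  have hb0 : b ≠ 0 := hb.ne_zero
  have hc0 : c ≠ 0 := hc.ne_zero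
  have : NeZero a := ⟨ha0⟩
  have : NeZero b := ⟨hb0⟩
  have : NeZero c := ⟨hc0⟩
  by_cases hone : a = 1 ∧ b = 1
  · obtain ⟨rfl, rfl⟩ := hone
    obtain ⟨s, hs⟩ := Leg.sq_ex (-1) hc (by simpa using h3)
    have hsq : IsSquare (-1 : ZMod c) := by
      refine ⟨(s : ZMod c), ?_⟩
      have h4 : ((s ^ 2 - -1 : ℤ) : ZMod c) = 0 := (ZMod.intCast_zmod_eq_zero_iff_dvd _ _).2 hs
      push_cast at h4
      linear_combination -h4
    obtain ⟨x, y, hxy⟩ := Nat.eq_sq_add_sq_of_isSquare_mod_neg_one hsq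
    refine ⟨x, y, 1, by simp, ?_⟩
    rw [hxy]
    push_cast
    ring
  obtain ⟨s, hs⟩ := Leg.sq_ex _ ha h1
  obtain ⟨t, ht⟩ := Leg.sq_ex _ hb h2
  obtain ⟨w, hw⟩ := Leg.sq_ex _ hc h3
  -- pigeonhole
  set X := Nat.sqrt (b * c) with hX
  set Y := Nat.sqrt (a * c) with hY
  set Z := Nat.sqrt (a * b) with hZ
  have hcard : a * b * c < (X + 1) * ((Y + 1) * (Z + 1)) := by
    have e1 := Nat.lt_succ_sqrt (b * c)
    have e2 := Nat.lt_succ_sqrt (a * c)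
    have e3 := Nat.lt_succ_sqrt (a * b)
    simp only [Nat.succ_eq_add_one, ← hX, ← hY, ← hZ] at e1 e2 e3
    by_contra hcon
    rw [not_lt] at hcon
    have e4 : ((X + 1) * ((Y + 1) * (Z + 1))) * ((X + 1) * ((Y + 1) * (Z + 1)))
        ≤ (a * b * c) * (a * b * c) := Nat.mul_le_mul hcon hcon
    have e5 : (b * c) * ((a * c) * (a * b)) <
        ((X + 1) * (X + 1)) * (((Y + 1) * (Y + 1)) * ((Z + 1) * (Z + 1))) :=
      Nat.mul_lt_mul'' e1 (Nat.mul_lt_mul'' e2 e3)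
    have e6 : (b * c) * ((a * c) * (a * b)) = (a * b * c) * (a * b * c) := by ring
    have e7 : ((X + 1) * (X + 1)) * (((Y + 1) * (Y + 1)) * ((Z + 1) * (Z + 1)))
      = ((X + 1) * ((Y + 1) * (Z + 1))) * ((X + 1) * ((Y + 1) * (Z + 1))) := by ring
    omega
  let F : ℕ × ℕ × ℕ → ZMod a × ZMod b × ZMod c := fun q =>
    (((b * q.2.1 - s * q.2.2 : ℤ) : ZMod a), ((a * q.1 - t * q.2.2 : ℤ) : ZMod b),
      ((a * q.1 - w * q.2.1 : ℤ) : ZMod c))
  obtain ⟨q, hq, q', hq', hne, heq⟩ := Finset.exists_ne_map_eq_of_card_lt_of_maps_to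
    (s := Finset.range (X + 1) ×ˢ (Finset.range (Y + 1) ×ˢ Finset.range (Z + 1)))
    (t := (Finset.univ : Finset (ZMod a × ZMod b × ZMod c))) (f := F)
    (by
      rw [Finset.card_univ, Finset.card_product, Finset.card_product]
      simp only [Fintype.card_prod, ZMod.card, Finset.card_range]
      calc _ = a * b * c := by ring
        _ < _ := hcard) (fun _ _ => Finset.mem_univ _)
  obtain ⟨x0, y0, z0⟩ := q
  obtain ⟨x1, y1, z1⟩ := q'
  simp only [Finset.mem_product, Finset.mem_range] at hq hq'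
  simp only [F, Prod.mk.injEq] at heq
  obtain ⟨g1, g2, g3⟩ := heq
  rw [ZMod.intCast_eq_intCast_iff_dvd_sub] at g1 g2 g3
  set x : ℤ := x1 - x0 with hx
  set y : ℤ := y1 - y0 with hy
  set z : ℤ := z1 - z0 with hz
  have k1 : (a : ℤ) ∣ b * y - s * z := by
    refine g1.trans (dvd_of_eq ?_)
    rw [hy, hz]; ring
  have k2 : (b : ℤ) ∣ a * x - t * z := by
    refine g2.trans (dvd_of_eq ?_)
    rw [hx, hz]; ring
  have k3 : (c : ℤ) ∣ a * x - w * y := by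
    refine g3.trans (dvd_of_eq ?_)
    rw [hx, hy]; ring
  have hxyz : ¬ (x = 0 ∧ y = 0 ∧ z = 0) := by
    rintro ⟨e1, e2, e3⟩
    apply hne
    have e1' : x1 = x0 := by omega
    have e2' : y1 = y0 := by omega
    have e3' : z1 = z0 := by omega
    rw [e1', e2', e3']
  have hxX : |x| ≤ X := by rw [abs_le]; omega
  have hyY : |y| ≤ Y := by rw [abs_le]; omega
  have hzZ : |z| ≤ Z := by rw [abs_le]; omega
  have hx2 : x ^ 2 ≤ b * c := by
    have := Leg.sqb _ _ hxX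
    exact_mod_cast this
  have hy2 : y ^ 2 ≤ a * c := by
    have := Leg.sqb _ _ hyY
    exact_mod_cast this
  have hz2 : z ^ 2 < a * b := by
    have e1 : z ^ 2 ≤ a * b := by
      have := Leg.sqb _ _ hzZ
      exact_mod_cast this
    refine lt_of_le_of_ne e1 fun h => hone (Leg.sq_triv ha hb hab h)
  have hxy2 : ¬ (x ^ 2 = b * c ∧ y ^ 2 = a * c) := by
    rintro ⟨e1, e2⟩
    exact hone ⟨(Leg.sq_triv ha hc hac e2).1, (Leg.sq_triv hb hc hbc e1).1⟩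
  -- divisibility
  set f : ℤ := a * x ^ 2 + b * y ^ 2 - c * z ^ 2 with hf
  have cab : IsCoprime (a : ℤ) (b : ℤ) := Nat.isCoprime_iff_coprime.2 hab
  have cac : IsCoprime (a : ℤ) (c : ℤ) := Nat.isCoprime_iff_coprime.2 hac
  have cbc : IsCoprime (b : ℤ) (c : ℤ) := Nat.isCoprime_iff_coprime.2 hbc
  have d1 : (a : ℤ) ∣ f := by
    refine cab.dvd_of_dvd_mul_left ?_
    have e : b * f = (b * y - s * z) * (b * y + s * z) + z ^ 2 * (s ^ 2 - (b * c))
      + a * (b * x ^ 2) := by rw [hf]; ring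
    rw [e]
    exact dvd_add (dvd_add (k1.mul_right _) (hs.mul_left _)) (dvd_mul_right _ _)
  have d2 : (b : ℤ) ∣ f := by
    refine cab.symm.dvd_of_dvd_mul_left ?_
    have e : a * f = (a * x - t * z) * (a * x + t * z) + z ^ 2 * (t ^ 2 - (a * c))
      + b * (a * y ^ 2) := by rw [hf]; ring
    rw [e]
    exact dvd_add (dvd_add (k2.mul_right _) (ht.mul_left _)) (dvd_mul_right _ _)
  have d3 : (c : ℤ) ∣ f := by
    refine cac.symm.dvd_of_dvd_mul_left ?_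
    have e : a * f = (a * x - w * y) * (a * x + w * y) + y ^ 2 * (w ^ 2 - (-(a * b)))
      + c * (-a * z ^ 2) := by rw [hf]; ring
    rw [e]
    exact dvd_add (dvd_add (k3.mul_right _) (hw.mul_left _)) (dvd_mul_right _ _)
  have dm : (a * b * c : ℤ) ∣ f := by
    have e1 : (a * b : ℤ) ∣ f := cab.mul_dvd d1 d2
    exact (cac.mul_left cbc).mul_dvd e1 d3
  have hap : (0 : ℤ) < a := by exact_mod_cast Nat.pos_of_ne_zero ha0
  have hbp : (0 : ℤ) < b := by exact_mod_cast Nat.pos_of_ne_zero hb0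
  have hcp : (0 : ℤ) < c := by exact_mod_cast Nat.pos_of_ne_zero hc0
  have b1 : f < 2 * (a * b * c) := by
    have e1 : (a : ℤ) * x ^ 2 ≤ a * (b * c) := mul_le_mul_of_nonneg_left hx2 hap.le
    have e2 : (b : ℤ) * y ^ 2 ≤ b * (a * c) := mul_le_mul_of_nonneg_left hy2 hbp.le
    have e3 : 0 ≤ c * z ^ 2 := by positivity
    have e4 : f ≤ 2 * (a * b * c) := by rw [hf]; linarith
    refine lt_of_le_of_ne e4 fun e5 => hxy2 ?_
    rw [hf] at e5
    have e6 : (a : ℤ) * x ^ 2 = a * (b * c) := by linarith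
    have e7 : (b : ℤ) * y ^ 2 = b * (a * c) := by linarith
    exact ⟨mul_left_cancel₀ hap.ne' e6, mul_left_cancel₀ hbp.ne' e7⟩
  have b2 : -(a * b * c : ℤ) < f := by
    have e1 : (c : ℤ) * z ^ 2 < c * (a * b) := mul_lt_mul_of_pos_left hz2 hcp
    have e2 : 0 ≤ a * x ^ 2 := by positivity
    have e3 : 0 ≤ b * y ^ 2 := by positivity
    rw [hf]; linarith
  obtain ⟨k, hk⟩ := dm
  have hmp : (0 : ℤ) < a * b * c := by positivity
  have hk1 : k < 2 := by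
    by_contra hcon
    have := mul_le_mul_of_nonneg_left (not_lt.1 hcon) hmp.le
    linarith
  have hk2 : -1 < k := by
    by_contra hcon
    have := mul_le_mul_of_nonneg_left (not_lt.1 hcon) hmp.le
    linarith
  have hk3 : k = 0 ∨ k = 1 := by omega
  rcases hk3 with rfl | rfl
  · refine ⟨x, y, z, hxyz, ?_⟩
    have : f = 0 := by rw [hk]; ring
    rw [hf] at this; linarith
  · refine ⟨x * z + b * y, y * z - a * x, z ^ 2 + a * b, ?_, ?_⟩
    · rintro ⟨-, -, e⟩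
      have : (0 : ℤ) < a * b := by positivity
      have : 0 ≤ z ^ 2 := sq_nonneg z
      linarith
    · have e : f = a * b * c := by rw [hk]; ring
      rw [hf] at e
      linear_combination (z ^ 2 + a * b) * e

theorem Leg.pos_case {a b c : ℤ} (ha : Squarefree a) (hb : Squarefree b) (hc : Squarefree c)
    (hab : IsCoprime a b) (hac : IsCoprime a c) (hbc : IsCoprime b c)
    (sa : 0 < a) (sb : 0 < b) (sc : c < 0)
    (h1 : ∀ p : ℕ, p.Prime → (p : ℤ) ∣ a → IsSquare ((-(b * c) : ℤ) : ZMod p))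
    (h2 : ∀ p : ℕ, p.Prime → (p : ℤ) ∣ b → IsSquare ((-(a * c) : ℤ) : ZMod p))
    (h3 : ∀ p : ℕ, p.Prime → (p : ℤ) ∣ c → IsSquare ((-(a * b) : ℤ) : ZMod p)) :
    ∃ x y z : ℤ, ¬ (x = 0 ∧ y = 0 ∧ z = 0) ∧ a * x ^ 2 + b * y ^ 2 + c * z ^ 2 = 0 := by
  have ea : ((a.natAbs : ℕ) : ℤ) = a := Int.natAbs_of_nonneg sa.le
  have eb : ((b.natAbs : ℕ) : ℤ) = b := Int.natAbs_of_nonneg sb.le
  have ec : ((c.natAbs : ℕ) : ℤ) = -c := Int.ofNat_natAbs_of_nonpos sc.le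
  have h := legendre (a := a.natAbs) (b := b.natAbs) (c := c.natAbs)
    (Int.squarefree_natAbs.2 ha) (Int.squarefree_natAbs.2 hb) (Int.squarefree_natAbs.2 hc)
    (Int.isCoprime_iff_gcd_eq_one.1 hab) (Int.isCoprime_iff_gcd_eq_one.1 hac)
    (Int.isCoprime_iff_gcd_eq_one.1 hbc)
    (fun p hp hpa => by
      have := h1 p hp (Int.natCast_dvd.2 hpa)
      rw [eb, ec, mul_neg]
      exact this)
    (fun p hp hpb => by
      have := h2 p hp (Int.natCast_dvd.2 hpb)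
      rw [ea, ec, mul_neg]
      exact this)
    (fun p hp hpc => by
      have := h3 p hp (Int.natCast_dvd.2 hpc)
      rw [ea, eb]
      exact this)
  obtain ⟨x, y, z, hne, he⟩ := h
  refine ⟨x, y, z, hne, ?_⟩
  rw [ea, eb, ec] at he
  linarith

theorem Leg.sqf_neg {a : ℤ} (h : Squarefree a) : Squarefree (-a) :=
  Int.squarefree_natAbs.1 (by rw [Int.natAbs_neg]; exact Int.squarefree_natAbs.2 h)

/-- **Legendre's theorem** -/
theorem legendre_int {a b c : ℤ} (ha : Squarefree a) (hb : Squarefree b) (hc : Squarefree c)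
    (hab : IsCoprime a b) (hac : IsCoprime a c) (hbc : IsCoprime b c)
    (hpos : ¬ (0 < a ∧ 0 < b ∧ 0 < c)) (hneg : ¬ (a < 0 ∧ b < 0 ∧ c < 0))
    (h1 : ∀ p : ℕ, p.Prime → (p : ℤ) ∣ a → IsSquare ((-(b * c) : ℤ) : ZMod p))
    (h2 : ∀ p : ℕ, p.Prime → (p : ℤ) ∣ b → IsSquare ((-(a * c) : ℤ) : ZMod p))
    (h3 : ∀ p : ℕ, p.Prime → (p : ℤ) ∣ c → IsSquare ((-(a * b) : ℤ) : ZMod p)) :
    ∃ x y z : ℤ, ¬ (x = 0 ∧ y = 0 ∧ z = 0) ∧ a * x ^ 2 + b * y ^ 2 + c * z ^ 2 = 0 := by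
  -- up to the overall sign
  have key : ∀ a b c : ℤ, Squarefree a → Squarefree b → Squarefree c → IsCoprime a b →
      IsCoprime a c → IsCoprime b c →
      (∀ p : ℕ, p.Prime → (p : ℤ) ∣ a → IsSquare ((-(b * c) : ℤ) : ZMod p)) →
      (∀ p : ℕ, p.Prime → (p : ℤ) ∣ b → IsSquare ((-(a * c) : ℤ) : ZMod p)) →
      (∀ p : ℕ, p.Prime → (p : ℤ) ∣ c → IsSquare ((-(a * b) : ℤ) : ZMod p)) →
      ((0 < a ∧ 0 < b ∧ c < 0) ∨ (0 < a ∧ b < 0 ∧ 0 < c) ∨ (a < 0 ∧ 0 < b ∧ 0 < c)) →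
      ∃ x y z : ℤ, ¬ (x = 0 ∧ y = 0 ∧ z = 0) ∧ a * x ^ 2 + b * y ^ 2 + c * z ^ 2 = 0 := by
    intro a b c ha hb hc hab hac hbc h1 h2 h3 hs
    rcases hs with ⟨sa, sb, sc⟩ | ⟨sa, sb, sc⟩ | ⟨sa, sb, sc⟩
    · exact Leg.pos_case ha hb hc hab hac hbc sa sb sc h1 h2 h3
    · obtain ⟨x, z, y, hne, he⟩ := Leg.pos_case ha hc hb hac hab hbc.symm sa sc sb
        (fun p hp h => by rw [mul_comm c b]; exact h1 p hp h) h3 h2
      exact ⟨x, y, z, fun h => hne ⟨h.1, h.2.2, h.2.1⟩, by linarith⟩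
    · obtain ⟨y, z, x, hne, he⟩ := Leg.pos_case hb hc ha hbc hab.symm hac.symm sb sc sa
        (fun p hp h => by rw [mul_comm c a]; exact h2 p hp h)
        (fun p hp h => by rw [mul_comm b a]; exact h3 p hp h) h1
      exact ⟨x, y, z, fun h => hne ⟨h.2.1, h.2.2, h.1⟩, by linarith⟩
  have na := ha.ne_zero
  have nb := hb.ne_zero
  have nc := hc.ne_zero
  by_cases hs : (0 < a ∧ 0 < b ∧ c < 0) ∨ (0 < a ∧ b < 0 ∧ 0 < c) ∨ (a < 0 ∧ 0 < b ∧ 0 < c)
  · exact key a b c ha hb hc hab hac hbc h1 h2 h3 hs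
  · have hs' : (0 < -a ∧ 0 < -b ∧ -c < 0) ∨ (0 < -a ∧ -b < 0 ∧ 0 < -c) ∨
        (-a < 0 ∧ 0 < -b ∧ 0 < -c) := by omega
    obtain ⟨x, y, z, hne, he⟩ := key (-a) (-b) (-c) (Leg.sqf_neg ha)
      (Leg.sqf_neg hb) (Leg.sqf_neg hc) (hab.neg_neg) (hac.neg_neg) (hbc.neg_neg)
      (fun p hp h => by rw [neg_mul_neg]; exact h1 p hp ((dvd_neg).1 h))
      (fun p hp h => by rw [neg_mul_neg]; exact h2 p hp ((dvd_neg).1 h))
      (fun p hp h => by rw [neg_mul_neg]; exact h3 p hp ((dvd_neg).1 h)) hs'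
    exact ⟨x, y, z, hne, by linarith⟩

end Pool.Agent.XR
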