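import Pool.Agent.XR.Leg0

/-!
# Rational solutions of `a x² + b y² = c`

Project XR (helper73).
-/

set_option autoImplicit false

namespace Pool.Agent.XR

namespace Leg

/-- a primitive integral solution -/
theorem min_sol {a b c : ℤ} (h : ∃ x y : ℚ, a * x ^ 2 + b * y ^ 2 = c) :
    ∃ X Y Z : ℤ, Z ≠ 0 ∧ a * X ^ 2 + b * Y ^ 2 = c * Z ^ 2 ∧
      ∀ p : ℕ, p.Prime → ¬ ((p : ℤ) ∣ X ∧ (p : ℤ) ∣ Y ∧ (p : ℤ) ∣ Z) := by
  classical
  have hex : ∃ m : ℕ, ∃ X Y Z : ℤ, Z ≠ 0 ∧ Z.natAbs = m ∧ a * X ^ 2 + b * Y ^ 2 = c * Z ^ 2 := by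
    obtain ⟨x, y, hxy⟩ := h
    refine ⟨_, x.num * y.den, y.num * x.den, x.den * y.den, ?_, rfl, ?_⟩
    · have h1 : (x.den : ℤ) ≠ 0 := by exact_mod_cast x.den_ne_zero
      have h2 : (y.den : ℤ) ≠ 0 := by exact_mod_cast y.den_ne_zero
      exact mul_ne_zero h1 h2
    · have h1 : (x.den : ℚ) ≠ 0 := by exact_mod_cast x.den_ne_zero
      have h2 : (y.den : ℚ) ≠ 0 := by exact_mod_cast y.den_ne_zero
      have hx : (x.num : ℚ) = x * x.den := (Rat.mul_den_eq_num x).symm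
      have hy : (y.num : ℚ) = y * y.den := (Rat.mul_den_eq_num y).symm
      have h3 : ((a * (x.num * y.den) ^ 2 + b * (y.num * x.den) ^ 2 : ℤ) : ℚ) =
          ((c * (x.den * y.den) ^ 2 : ℤ) : ℚ) := by
        push_cast
        rw [← hxy, hx, hy]
        ring
      exact_mod_cast h3
  obtain ⟨X, Y, Z, hZ, hm, he⟩ := Nat.find_spec hex
  refine ⟨X, Y, Z, hZ, he, ?_⟩
  rintro p hp ⟨⟨X', rfl⟩, ⟨Y', rfl⟩, ⟨Z', rfl⟩⟩
  have hp0 : (p : ℤ) ≠ 0 := by exact_mod_cast hp.ne_zero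
  have hZ' : Z' ≠ 0 := fun h => hZ (by rw [h, mul_zero])
  have hlt : Z'.natAbs < Nat.find hex := by
    rw [← hm, Int.natAbs_mul, Int.natAbs_natCast]
    have h1 : 0 < Z'.natAbs := Int.natAbs_pos.2 hZ'
    have := hp.two_le
    nlinarith
  refine Nat.find_min hex hlt ⟨X', Y', Z', hZ', rfl, ?_⟩
  have hp2 : (p : ℤ) ^ 2 ≠ 0 := pow_ne_zero 2 hp0
  apply mul_left_cancel₀ hp2
  linear_combination he

/-- the local condition at a prime divisor of the first coefficient -/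
theorem loc {a b c : ℤ} {p : ℕ} (hp : p.Prime) (hpa : (p : ℤ) ∣ a) (hpa2 : ¬ (p : ℤ) ^ 2 ∣ a)
    (hpc : ¬ (p : ℤ) ∣ c) {X Y Z : ℤ} (h : a * X ^ 2 + b * Y ^ 2 = c * Z ^ 2)
    (hprim : ¬ ((p : ℤ) ∣ X ∧ (p : ℤ) ∣ Y ∧ (p : ℤ) ∣ Z)) :
    IsSquare ((b * c : ℤ) : ZMod p) := by
  have : Fact p.Prime := ⟨hp⟩
  have hpp : Prime (p : ℤ) := Nat.prime_iff_prime_int.1 hp
  have hY : ¬ (p : ℤ) ∣ Y := by
    intro hY
    have h1 : (p : ℤ) ∣ c * Z ^ 2 := by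
      rw [← h]
      exact dvd_add (hpa.mul_right _) ((dvd_pow hY two_ne_zero).mul_left _)
    have hZ : (p : ℤ) ∣ Z := hpp.dvd_of_dvd_pow ((hpp.dvd_or_dvd h1).resolve_left hpc)
    have h2 : (p : ℤ) ^ 2 ∣ a * X ^ 2 := by
      have e : a * X ^ 2 = c * Z ^ 2 - b * Y ^ 2 := by linarith
      rw [e]
      exact dvd_sub ((pow_dvd_pow_of_dvd hZ 2).mul_left _) ((pow_dvd_pow_of_dvd hY 2).mul_left _)
    have hX : (p : ℤ) ∣ X := by
      by_contra hX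
      have hcop : IsCoprime ((p : ℤ) ^ 2) (X ^ 2) :=
        IsCoprime.pow ((Prime.coprime_iff_not_dvd hpp).2 hX)
      exact hpa2 (hcop.dvd_of_dvd_mul_right h2)
    exact hprim ⟨hX, hY, hZ⟩
  have hY0 : (Y : ZMod p) ≠ 0 := fun h0 => hY ((ZMod.intCast_zmod_eq_zero_iff_dvd _ _).1 h0)
  have ha0 : (a : ZMod p) = 0 := (ZMod.intCast_zmod_eq_zero_iff_dvd _ _).2 hpa
  have h1 : ((a * X ^ 2 + b * Y ^ 2 : ℤ) : ZMod p) = ((c * Z ^ 2 : ℤ) : ZMod p) := by rw [h]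
  push_cast at h1
  rw [ha0, zero_mul, zero_add] at h1
  refine ⟨(c * Z / Y : ZMod p), ?_⟩
  push_cast
  field_simp
  linear_combination (c : ZMod p) * h1

end Leg

/-- the solvability of `a x² + b y² = c` in rational numbers -/
theorem rat_iff {a b c : ℕ} (ha : Squarefree a) (hb : Squarefree b) (hc : Squarefree c)
    (hab : a.Coprime b) (hac : a.Coprime c) (hbc : b.Coprime c) :
    (∃ x y : ℚ, (a : ℚ) * x ^ 2 + b * y ^ 2 = c) ↔
      (∀ p : ℕ, p.Prime → p ∣ a → IsSquare ((b * c : ℤ) : ZMod p)) ∧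
      (∀ p : ℕ, p.Prime → p ∣ b → IsSquare ((a * c : ℤ) : ZMod p)) ∧
      (∀ p : ℕ, p.Prime → p ∣ c → IsSquare ((-(a * b) : ℤ) : ZMod p)) := by
  have nd : ∀ {u v : ℕ}, u.Coprime v → ∀ p : ℕ, p.Prime → p ∣ u → ¬ (p : ℤ) ∣ (v : ℤ) := by
    intro u v huv p hp hpu hpv
    have hpv' : p ∣ v := by exact_mod_cast hpv
    exact hp.one_lt.ne' (Nat.eq_one_of_dvd_coprimes huv hpu hpv')
  have sf : ∀ {u : ℕ}, Squarefree u → ∀ p : ℕ, p.Prime → ¬ (p : ℤ) ^ 2 ∣ (u : ℤ) := by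
    intro u hu p hp hpu
    have h1 : p ^ 2 ∣ u := by exact_mod_cast hpu
    rw [sq] at h1
    exact hp.one_lt.ne' (Nat.isUnit_iff.1 (hu p h1))
  constructor
  · intro h
    obtain ⟨X, Y, Z, hZ, he, hprim⟩ := Leg.min_sol (a := a) (b := b) (c := c)
      (by push_cast; exact h)
    refine ⟨fun p hp hpa => ?_, fun p hp hpb => ?_, fun p hp hpc => ?_⟩
    · exact Leg.loc hp (by exact_mod_cast hpa) (sf ha p hp) (nd hac p hp hpa) he (hprim p hp)
    · refine Leg.loc hp (a := b) (b := a) (c := c) (X := Y) (Y := X) (by exact_mod_cast hpb)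
        (sf hb p hp) (nd hbc p hp hpb) (by linarith) fun h => hprim p hp ⟨h.2.1, h.1, h.2.2⟩
    · have h1 := Leg.loc hp (a := c) (b := -b) (c := a) (X := Z) (Y := Y) (Z := X)
        (by exact_mod_cast hpc) (sf hc p hp) (nd hac.symm p hp hpc) (by linarith)
        fun h => hprim p hp ⟨h.2.2, h.2.1, h.1⟩
      have e : (-(b : ℤ) * a) = -(a * b) := by ring
      rwa [e] at h1
  · rintro ⟨h1, h2, h3⟩
    obtain ⟨x, y, z, hne, he⟩ := legendre ha hb hc hab hac hbc h1 h2 h3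
    have hap : (0 : ℤ) < a := by exact_mod_cast Nat.pos_of_ne_zero ha.ne_zero
    have hbp : (0 : ℤ) < b := by exact_mod_cast Nat.pos_of_ne_zero hb.ne_zero
    have hz : z ≠ 0 := by
      intro hz
      rw [hz] at he
      have e1 : 0 ≤ (a : ℤ) * x ^ 2 := by positivity
      have e2 : 0 ≤ (b : ℤ) * y ^ 2 := by positivity
      have e3 : (a : ℤ) * x ^ 2 = 0 := by linarith
      have e4 : (b : ℤ) * y ^ 2 = 0 := by linarith
      have e5 : x = 0 := by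
        rcases mul_eq_zero.1 e3 with h | h
        · exact absurd h hap.ne'
        · exact pow_eq_zero_iff two_ne_zero |>.1 h
      have e6 : y = 0 := by
        rcases mul_eq_zero.1 e4 with h | h
        · exact absurd h hbp.ne'
        · exact pow_eq_zero_iff two_ne_zero |>.1 h
      exact hne ⟨e5, e6, hz⟩
    have hz' : (z : ℚ) ≠ 0 := by exact_mod_cast hz
    refine ⟨x / z, y / z, ?_⟩
    have he' : ((a : ℚ) * x ^ 2 + b * y ^ 2 : ℚ) = c * z ^ 2 := by exact_mod_cast he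
    field_simp
    linear_combination he'

end Pool.Agent.XR
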