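import Pool.Agent.H471R2.Bq.V4
import Pool.Agent.XR.Defs

/-!
# Project XR: the imaginary quadratic field `K` with `a ^ 2 = -n`
-/

set_option autoImplicit false
set_option linter.unusedSectionVars false
open NumberField Ideal nonZeroDivisors

namespace Pool.Agent.XR
open Pool.Agent.H471R2

variable {K : Type} [Field K] [NumberField K]

/-- the data of the imaginary quadratic field `ℚ(√-n)` -/
structure Qd (K : Type) [Field K] [NumberField K] (n : ℕ) where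
  σ : K ≃ₐ[ℚ] K
  s : 𝓞 K
  ss : s * s = -(n : 𝓞 K)
  gal : IsGalois ℚ K
  σs : ra σ s = -s
  σσ : σ * σ = 1
  all : ∀ ρ : K ≃ₐ[ℚ] K, ρ = 1 ∨ ρ = σ
  ne : (1 : K ≃ₐ[ℚ] K) ≠ σ
  rep : ∀ x : K, ∃ u v : ℚ, x = (u : K) + (v : K) * (s : K)
  two : Module.finrank ℚ K = 2

theorem exists_rep (hK : Module.finrank ℚ K = 2) {n : ℕ} (hn : 0 < n) {a : K}
    (ha : a ^ 2 = -(n : K)) (x : K) : ∃ u v : ℚ, x = (u : K) + (v : K) * a := by
  have hli : LinearIndependent ℚ ![(1 : K), a] := by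
    rw [LinearIndependent.pair_iff' one_ne_zero]
    intro q hq
    have h1 : (q : K) = a := by rw [← hq, Algebra.smul_def]; simp
    have h2 : ((q ^ 2 : ℚ) : K) = ((-(n : ℚ) : ℚ) : K) := by
      push_cast; rw [h1, ha]
    have h3 : q ^ 2 = -(n : ℚ) := by exact_mod_cast h2
    have h4 : (0 : ℚ) < n := by exact_mod_cast hn
    nlinarith [sq_nonneg q]
  have hsp : Submodule.span ℚ (Set.range ![(1 : K), a]) = ⊤ :=
    hli.span_eq_top_of_card_eq_finrank' (by rw [hK]; rfl)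
  have hx : x ∈ Submodule.span ℚ (Set.range ![(1 : K), a]) := by rw [hsp]; trivial
  simp only [Matrix.range_cons, Matrix.range_empty, Set.union_empty] at hx
  rw [Set.union_comm] at hx
  rw [← Set.insert_eq] at hx
  rw [Submodule.mem_span_insert] at hx
  obtain ⟨v, z, hz, rfl⟩ := hx
  rw [Submodule.mem_span_singleton] at hz
  obtain ⟨u, rfl⟩ := hz
  refine ⟨u, v, ?_⟩
  rw [Algebra.smul_def, Algebra.smul_def, mul_one, add_comm]
  simp

theorem exists_qd (hK : Module.finrank ℚ K = 2) {n : ℕ} (hn : 0 < n) {a : K}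
    (ha : a ^ 2 = -(n : K)) : Nonempty (Qd K n) := by
  have hq : Algebra.IsQuadraticExtension ℚ K := ⟨hK⟩
  have hgal : IsGalois ℚ K := inferInstance
  have hc : Nat.card (K ≃ₐ[ℚ] K) = 2 := by rw [IsGalois.card_aut_eq_finrank, hK]
  have hint : IsIntegral ℤ a := by
    refine ⟨Polynomial.X ^ 2 + Polynomial.C (n : ℤ), ?_, ?_⟩
    · exact Polynomial.monic_X_pow_add_C _ two_ne_zero
    · simp [ha]
  have hF : Finite (K ≃ₐ[ℚ] K) := inferInstance
  obtain ⟨σ, hσ, hall⟩ : ∃ σ : K ≃ₐ[ℚ] K, (1 : K ≃ₐ[ℚ] K) ≠ σ ∧ ∀ ρ : K ≃ₐ[ℚ] K, ρ = 1 ∨ ρ = σ := by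
    obtain ⟨x, y, hxy, hu⟩ := Nat.card_eq_two_iff.1 hc
    have h1 : (1 : K ≃ₐ[ℚ] K) ∈ ({x, y} : Set (K ≃ₐ[ℚ] K)) := by rw [hu]; trivial
    have h2 : ∀ ρ : K ≃ₐ[ℚ] K, ρ = x ∨ ρ = y := by
      intro ρ
      have : ρ ∈ ({x, y} : Set (K ≃ₐ[ℚ] K)) := by rw [hu]; trivial
      simpa using this
    rcases h2 1 with h | h
    · exact ⟨y, by rw [h]; exact hxy, fun ρ => by rw [h]; exact h2 ρ⟩
    · exact ⟨x, by rw [h]; exact hxy.symm, fun ρ => by rw [h]; exact (h2 ρ).symm⟩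
  have hrep := exists_rep hK hn ha
  have hsa : σ a = -a := by
    have h1 : (σ a) ^ 2 = a ^ 2 := by rw [← map_pow, ha]; simp
    rcases sq_eq_sq_iff_eq_or_eq_neg.1 h1 with h | h
    · exfalso
      apply hσ
      apply AlgEquiv.ext
      intro x
      obtain ⟨u, v, rfl⟩ := hrep x
      simp [h]
    · exact h
  have hss : σ * σ = 1 := by
    rcases hall (σ * σ) with h | h
    · exact h
    · exfalso
      apply hσ
      have : σ * σ = σ * 1 := by rw [h, mul_one]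
      exact (mul_left_cancel this).symm
  refine ⟨⟨σ, ⟨a, hint⟩, ?_, hgal, ?_, hss, hall, hσ, ?_, hK⟩⟩
  · apply RingOfIntegers.ext
    have : (a : K) * a = -(n : K) := by rw [← ha]; ring
    simpa using this
  · apply RingOfIntegers.ext
    rw [ra_coe]
    simpa using hsa
  · exact hrep

namespace Qd
variable {n : ℕ} (Q : Qd K n)

theorem σK : Q.σ (Q.s : K) = -(Q.s : K) := by
  have := congrArg (fun z : 𝓞 K => (z : K)) Q.σs
  simpa using this

theorem ssK : (Q.s : K) * (Q.s : K) = -(n : K) := by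
  have := congrArg (algebraMap (𝓞 K) K) Q.ss
  simpa using this

theorem σσx (x : K) : Q.σ (Q.σ x) = x := by
  have := congrArg (fun f : K ≃ₐ[ℚ] K => f x) Q.σσ
  exact this

theorem ra_ra (x : 𝓞 K) : ra Q.σ (ra Q.σ x) = x := by
  rw [← ra_mul, Q.σσ, ra_one]

theorem ia_ia' (I : Ideal (𝓞 K)) : ia Q.σ (ia Q.σ I) = I := by
  rw [ia_ia, Q.σσ, ia_one]

theorem prod_univ {M : Type*} [CommMonoid M] (f : (K ≃ₐ[ℚ] K) → M) :
    ∏ ρ : K ≃ₐ[ℚ] K, f ρ = f 1 * f Q.σ := by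
  classical
  have h : (Finset.univ : Finset (K ≃ₐ[ℚ] K)) = {1, Q.σ} := by
    symm
    rw [Finset.eq_univ_iff_forall]
    intro ρ
    simp only [Finset.mem_insert, Finset.mem_singleton]
    exact Q.all ρ
  rw [h, Finset.prod_pair Q.ne]

theorem mul_ia (I : Ideal (𝓞 K)) : I * ia Q.σ I = span {((absNorm I : ℕ) : 𝓞 K)} := by
  have := Q.gal
  rw [← prod_ia, Q.prod_univ, ia_one]

/-- the conjugate -/
theorem σ_rep (u v : ℚ) : Q.σ ((u : K) + (v : K) * (Q.s : K)) = (u : K) - (v : K) * (Q.s : K) := by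
  rw [map_add, map_mul, Q.σK]
  simp only [map_ratCast]
  ring

theorem nm_rep (u v : ℚ) : ((u : K) + (v : K) * (Q.s : K)) * Q.σ ((u : K) + (v : K) * (Q.s : K)) =
    ((u ^ 2 + n * v ^ 2 : ℚ) : K) := by
  rw [Q.σ_rep]
  push_cast
  linear_combination (-(v : K) ^ 2) * Q.ssK

/-- the norm of an algebraic integer is a natural number -/
theorem nm_int (x : 𝓞 K) : x * ra Q.σ x = ((absNorm (span {x}) : ℕ) : 𝓞 K) := by
  have := Q.gal
  have h1 := intNorm_eq_prod x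
  rw [Q.prod_univ, ra_one] at h1
  rw [← h1]
  have h2 : 0 ≤ Algebra.intNorm ℤ (𝓞 K) x := by
    obtain ⟨u, v, huv⟩ := Q.rep (x : K)
    have h3 := Q.nm_rep u v
    rw [← huv] at h3
    have h4 : (((Algebra.intNorm ℤ (𝓞 K) x : ℤ) : 𝓞 K) : K) = (x : K) * Q.σ (x : K) := by
      have := congrArg (algebraMap (𝓞 K) K) h1
      simpa using this
    rw [h3] at h4
    have h5 : ((Algebra.intNorm ℤ (𝓞 K) x : ℤ) : ℚ) = u ^ 2 + n * v ^ 2 := by
      have h6 : (((Algebra.intNorm ℤ (𝓞 K) x : ℤ) : ℚ) : K) = ((u ^ 2 + n * v ^ 2 : ℚ) : K) := by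
        rw [← h4]; simp
      exact_mod_cast h6
    have h7 : (0 : ℚ) ≤ ((Algebra.intNorm ℤ (𝓞 K) x : ℤ) : ℚ) := by rw [h5]; positivity
    exact_mod_cast h7
  have h3 : (absNorm (span {x}) : ℤ) = Algebra.intNorm ℤ (𝓞 K) x := by
    rw [absNorm_span_singleton, ← Algebra.intNorm_eq_norm, Int.natCast_natAbs, abs_of_nonneg h2]
  have h4 : ((absNorm (span {x}) : ℕ) : 𝓞 K) = ((Algebra.intNorm ℤ (𝓞 K) x : ℤ) : 𝓞 K) := by
    rw [← h3]; simp
  rw [h4]; rfl

/-- rational algebraic integers -/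
theorem int_of_rat {x : 𝓞 K} {q : ℚ} (h : (x : K) = (q : K)) : ∃ m : ℤ, x = (m : 𝓞 K) ∧ q = m := by
  have hx : IsIntegral ℤ (x : K) := x.isIntegral_coe
  rw [h] at hx
  have hq2 : IsIntegral ℤ q :=
    (isIntegral_algebraMap_iff (R := ℤ) (A := ℚ) (B := K) (algebraMap ℚ K).injective (x := q)).1 hx
  obtain ⟨m, hm⟩ := IsIntegrallyClosed.isIntegral_iff.1 hq2
  have hm' : (m : ℚ) = q := hm
  refine ⟨m, ?_, hm'.symm⟩
  apply RingOfIntegers.ext
  rw [h, ← hm']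
  simp

/-- the trace -/
theorem tr_int (x : 𝓞 K) {u v : ℚ} (h : (x : K) = (u : K) + (v : K) * (Q.s : K)) :
    ∃ t : ℤ, x + ra Q.σ x = (t : 𝓞 K) ∧ 2 * u = t := by
  apply int_of_rat
  have h1 : ((x + ra Q.σ x : 𝓞 K) : K) = (x : K) + Q.σ (x : K) := by simp
  rw [h1, h, Q.σ_rep]
  push_cast
  ring

include Q in
/-- units -/
theorem unit_eq (hn : Squarefree n) (h1n : 1 < n) (h3 : n ≠ 3) (e : (𝓞 K)ˣ) : (e : 𝓞 K) = 1 ∨ (e : 𝓞 K) = -1 := by
  obtain ⟨u, v, huv⟩ := Q.rep ((e : 𝓞 K) : K)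
  obtain ⟨t, ht, ht2⟩ := Q.tr_int (e : 𝓞 K) huv
  have h1 : u ^ 2 + n * v ^ 2 = 1 := by
    have h2 := Q.nm_rep u v
    rw [← huv] at h2
    have h4 := Q.nm_int (e : 𝓞 K)
    have h5 : span {(e : 𝓞 K)} = ⊤ := Ideal.span_singleton_eq_top.2 e.isUnit
    rw [h5, absNorm_top, Nat.cast_one] at h4
    have h6 := congrArg (algebraMap (𝓞 K) K) h4
    rw [map_mul, map_one] at h6
    have h7 : ((e : 𝓞 K) : K) * Q.σ ((e : 𝓞 K) : K) = 1 := h6
    rw [h2] at h7
    exact_mod_cast h7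
  have hnQ : (1 : ℚ) < n := by exact_mod_cast h1n
  have hsq : ∀ m : ℕ, (∃ w : ℚ, w ^ 2 = m) → ∃ k : ℕ, m = k ^ 2 := by
    rintro m ⟨w, hw⟩
    have h2 : IsSquare (m : ℚ) := ⟨w, by rw [← hw]; ring⟩
    rw [Rat.isSquare_natCast_iff] at h2
    obtain ⟨k, hk⟩ := h2
    exact ⟨k, by rw [hk]; ring⟩
  -- the trace has absolute value at most two
  have h4 : (t : ℚ) ^ 2 + 4 * (n * v ^ 2) = 4 := by rw [← ht2]; linear_combination 4 * h1
  have h5 : t ^ 2 ≤ 4 := by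
    have : (t : ℚ) ^ 2 ≤ 4 := by nlinarith [sq_nonneg v, mul_nonneg (by linarith : (0:ℚ) ≤ n) (sq_nonneg v)]
    exact_mod_cast this
  have h6 : t ≤ 2 := by nlinarith
  have h7 : -2 ≤ t := by nlinarith
  have h0 : v = 0 := by
    by_contra hv
    have hv2 : 0 < v ^ 2 := by positivity
    have h8 : t ^ 2 < 4 := by
      have : (t : ℚ) ^ 2 < 4 := by nlinarith
      exact_mod_cast this
    have h9 : t = 0 ∨ t ^ 2 = 1 := by
      have h10 : t < 2 := by nlinarith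
      have h11 : -2 < t := by nlinarith
      have : t = 0 ∨ t = 1 ∨ t = -1 := by omega
      rcases this with rfl | rfl | rfl <;> simp
    rcases h9 with rfl | h9
    · -- n is a square
      obtain ⟨k, hk⟩ := hsq n ⟨n * v, by
        push_cast at h4
        linear_combination (n : ℚ) / 4 * h4⟩
      have h10 : k * k ∣ n := ⟨1, by rw [hk]; ring⟩
      have h11 := Nat.isUnit_iff.1 (hn k h10)
      rw [hk, h11] at h1n
      omega
    · have h12 : (t : ℚ) ^ 2 = 1 := by exact_mod_cast h9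
      obtain ⟨k, hk⟩ := hsq (3 * n) ⟨2 * (n * v), by
        push_cast
        rw [h12] at h4
        linear_combination (n : ℚ) * h4⟩
      have h13 : 3 ∣ k := by
        have : 3 ∣ k ^ 2 := ⟨n, by rw [← hk]⟩
        exact Nat.Prime.dvd_of_dvd_pow Nat.prime_three this
      obtain ⟨j, rfl⟩ := h13
      have h14 : n = 3 * j ^ 2 := by nlinarith
      have h15 : j * j ∣ n := ⟨3, by rw [h14]; ring⟩
      have h16 := Nat.isUnit_iff.1 (hn j h15)
      rw [h14, h16] at h3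
      exact h3 rfl
  rw [h0] at huv h1
  have h17 : u = 1 ∨ u = -1 := by
    have : (u - 1) * (u + 1) = 0 := by linear_combination h1
    rcases mul_eq_zero.1 this with h | h
    · left; linarith
    · right; linarith
  rcases h17 with h | h
  · left
    apply RingOfIntegers.ext
    rw [huv, h]; simp
  · right
    apply RingOfIntegers.ext
    rw [huv, h]; simp

end Qd

end Pool.Agent.XR
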