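import Pool.Agent.XR.Quad

/-!
# Project XR: the ramified primes and the ambiguous ideal classes
-/

set_option autoImplicit false
set_option linter.unusedSectionVars false
open NumberField Ideal nonZeroDivisors

namespace Pool.Agent.XR
open Pool.Agent.H471R2

variable {K : Type} [Field K] [NumberField K]

theorem sup_sq_eq {q a b : 𝓞 K} {I : Ideal (𝓞 K)} (hI : I = span {a} ⊔ span {b}) (h1 : q ∣ a * a)
    (h2 : q ∣ a * b) (h3 : q ∣ b * b) (h4 : q ∈ I ^ 2) : I ^ 2 = span {q} := by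
  apply le_antisymm
  · rw [sq, hI, Ideal.sup_mul, Ideal.mul_sup, Ideal.mul_sup, Ideal.span_singleton_mul_span_singleton,
      Ideal.span_singleton_mul_span_singleton, Ideal.span_singleton_mul_span_singleton,
      Ideal.span_singleton_mul_span_singleton]
    refine sup_le (sup_le ?_ ?_) (sup_le ?_ ?_) <;> rw [Ideal.span_singleton_le_span_singleton]
    · exact h1
    · exact h2
    · rw [mul_comm]; exact h2
    · exact h3
  · rw [Ideal.span_singleton_le_iff_mem]; exact h4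

theorem mem_Rn {n q : ℕ} (h : q ∈ Rn n) : (q.Prime ∧ q ∣ n) ∨ (q = 2 ∧ n % 4 = 1) := by
  unfold Rn at h
  split_ifs at h with h1
  · rcases Finset.mem_insert.1 h with h2 | h2
    · exact Or.inr ⟨h2, h1⟩
    · exact Or.inl ⟨Nat.prime_of_mem_primeFactors h2, Nat.dvd_of_mem_primeFactors h2⟩
  · exact Or.inl ⟨Nat.prime_of_mem_primeFactors h, Nat.dvd_of_mem_primeFactors h⟩

theorem Rn_prime {n q : ℕ} (h : q ∈ Rn n) : q.Prime := by
  rcases mem_Rn h with h | h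
  · exact h.1
  · rw [h.1]; exact Nat.prime_two

theorem nat_dvd_of_coe {a b : ℕ} (h : ((a : ℕ) : 𝓞 K) ∣ ((b : ℕ) : 𝓞 K)) : a ∣ b := by
  have h1 : (((a : ℕ) : ℤ) : 𝓞 K) ∣ (((b : ℕ) : ℤ) : 𝓞 K) := by simpa using h
  exact_mod_cast int_dvd_of_coe h1

theorem span_nat_ne {r : ℕ} (hr : r ≠ 0) : span {((r : ℕ) : 𝓞 K)} ≠ (⊥ : Ideal (𝓞 K)) :=
  span_ne_bot (by exact_mod_cast hr)

theorem absNorm_nat {n : ℕ} (Q : Qd K n) (r : ℕ) : absNorm (span {((r : ℕ) : 𝓞 K)}) = r ^ 2 := by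
  rw [absNorm_span_natCast, RingOfIntegers.rank, Q.two]

theorem absNorm_root {n : ℕ} (Q : Qd K n) {r : ℕ} {P : Ideal (𝓞 K)} (h : P ^ 2 = span {((r : ℕ) : 𝓞 K)}) :
    absNorm P = r := by
  have h1 := congrArg absNorm h
  rw [map_pow, absNorm_nat Q] at h1
  exact Nat.pow_left_injective two_ne_zero h1

namespace Qd
variable {n : ℕ} (Q : Qd K n)

include Q in
theorem exists_root (hn : Squarefree n) {q : ℕ} (hq : q ∈ Rn n) :
    ∃ P : Ideal (𝓞 K), P ^ 2 = span {((q : ℕ) : 𝓞 K)} := by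
  rcases mem_Rn hq with ⟨hp, n', hn'⟩ | ⟨rfl, h4⟩
  · refine ⟨span {(q : 𝓞 K)} ⊔ span {Q.s}, sup_sq_eq rfl ?_ ?_ ?_ ?_⟩
    · exact dvd_mul_right _ _
    · exact dvd_mul_right _ _
    · rw [Q.ss]
      refine dvd_neg.2 ?_
      rw [hn']
      push_cast
      exact dvd_mul_right _ _
    · have hcop : IsCoprime (q : ℤ) (n' : ℤ) := by
        rw [Nat.isCoprime_iff_coprime]
        refine (Nat.Prime.coprime_iff_not_dvd hp).2 ?_
        rintro ⟨e, he⟩
        have h1 : q * q ∣ n := ⟨e, by rw [hn', he]; ring⟩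
        exact hp.one_lt.ne' (Nat.isUnit_iff.1 (hn q h1))
      obtain ⟨u, w, huw⟩ := hcop
      have e1 : (q : 𝓞 K) = (u : 𝓞 K) * ((q : 𝓞 K) * (q : 𝓞 K)) - (w : 𝓞 K) * (Q.s * Q.s) := by
        rw [Q.ss, hn']
        have : (q : ℤ) = u * (q * q) + w * (q * n') := by linear_combination (-(q : ℤ)) * huw
        have h2 := congrArg (fun z : ℤ => (z : 𝓞 K)) this
        push_cast at h2 ⊢
        linear_combination h2
      have m1 : (q : 𝓞 K) ∈ (span {(q : 𝓞 K)} ⊔ span {Q.s} : Ideal (𝓞 K)) :=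
        Ideal.mem_sup_left (Ideal.mem_span_singleton_self _)
      have m2 : Q.s ∈ (span {(q : 𝓞 K)} ⊔ span {Q.s} : Ideal (𝓞 K)) :=
        Ideal.mem_sup_right (Ideal.mem_span_singleton_self _)
      refine (congrArg (fun z => z ∈ (span {(q : 𝓞 K)} ⊔ span {Q.s} : Ideal (𝓞 K)) ^ 2) e1).mpr ?_
      rw [sq (span {(q : 𝓞 K)} ⊔ span {Q.s} : Ideal (𝓞 K))]
      exact Ideal.sub_mem _ (Ideal.mul_mem_left _ _ (Ideal.mul_mem_mul m1 m1))
        (Ideal.mul_mem_left _ _ (Ideal.mul_mem_mul m2 m2))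
  · obtain ⟨e, he⟩ : ∃ e : ℕ, n = 1 + 4 * e := ⟨n / 4, by omega⟩
    refine ⟨span {((2 : ℕ) : 𝓞 K)} ⊔ span {1 + Q.s}, sup_sq_eq rfl ?_ ?_ ?_ ?_⟩
    · exact dvd_mul_right _ _
    · exact dvd_mul_right _ _
    · refine ⟨Q.s - 2 * (e : 𝓞 K), ?_⟩
      have h1 := Q.ss
      have h9 : (n : 𝓞 K) = 1 + 4 * (e : 𝓞 K) := by exact_mod_cast congrArg (fun z : ℕ => (z : 𝓞 K)) he
      push_cast
      linear_combination h1 - h9
    · have e1 : ((2 : ℕ) : 𝓞 K) = ((2 : ℕ) : 𝓞 K) * (1 + Q.s) - (1 + Q.s) * (1 + Q.s) -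
          (e : 𝓞 K) * (((2 : ℕ) : 𝓞 K) * ((2 : ℕ) : 𝓞 K)) := by
        have h1 := Q.ss
        have h9 : (n : 𝓞 K) = 1 + 4 * (e : 𝓞 K) := by exact_mod_cast congrArg (fun z : ℕ => (z : 𝓞 K)) he
        push_cast
        linear_combination h1 - h9
      have m1 : ((2 : ℕ) : 𝓞 K) ∈ (span {((2 : ℕ) : 𝓞 K)} ⊔ span {1 + Q.s} : Ideal (𝓞 K)) :=
        Ideal.mem_sup_left (Ideal.mem_span_singleton_self _)
      have m2 : 1 + Q.s ∈ (span {((2 : ℕ) : 𝓞 K)} ⊔ span {1 + Q.s} : Ideal (𝓞 K)) :=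
        Ideal.mem_sup_right (Ideal.mem_span_singleton_self _)
      refine (congrArg (fun z => z ∈ (span {((2 : ℕ) : 𝓞 K)} ⊔ span {1 + Q.s} : Ideal (𝓞 K)) ^ 2) e1).mpr ?_
      rw [sq (span {((2 : ℕ) : 𝓞 K)} ⊔ span {1 + Q.s} : Ideal (𝓞 K))]
      exact Ideal.sub_mem _ (Ideal.sub_mem _ (Ideal.mul_mem_mul m1 m2) (Ideal.mul_mem_mul m2 m2))
        (Ideal.mul_mem_left _ _ (Ideal.mul_mem_mul m1 m1))

include Q in
theorem exists_roots (hn : Squarefree n) {D : Finset ℕ} (hD : D ⊆ Rn n) :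
    ∃ P : Ideal (𝓞 K), P ^ 2 = span {((∏ p ∈ D, p : ℕ) : 𝓞 K)} := by
  classical
  induction D using Finset.induction_on with
  | empty => exact ⟨⊤, by simp⟩
  | insert q D hq ih =>
    obtain ⟨P, hP⟩ := ih (fun x hx => hD (Finset.mem_insert_of_mem hx))
    obtain ⟨P', hP'⟩ := Q.exists_root hn (hD (Finset.mem_insert_self _ _))
    refine ⟨P' * P, ?_⟩
    rw [mul_pow, hP, hP', Finset.prod_insert hq, Ideal.span_singleton_mul_span_singleton]
    push_cast
    rfl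

/-- conjugation acts trivially modulo a ramified prime -/
theorem sub_mem {q : ℕ} (hq : q.Prime) {P : Ideal (𝓞 K)} (hP : P ^ 2 = span {((q : ℕ) : 𝓞 K)}) (x : 𝓞 K) :
    x - ra Q.σ x ∈ P := by
  have hσ : ia Q.σ P = P := by
    apply ideal_sq_inj
    rw [← ia_pow, hP, ia_span, map_natCast]
  have hN : absNorm P = q := absNorm_root Q hP
  have hPp : P.IsPrime := Ideal.isPrime_of_irreducible_absNorm (by rw [hN]; exact hq)
  have hcard : Nat.card (𝓞 K ⧸ P) = q := by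
    rw [← hN, absNorm_apply]
    rfl
  have hfin : Finite (𝓞 K ⧸ P) := Nat.finite_of_card_ne_zero (by rw [hcard]; exact hq.ne_zero)
  have : Fintype (𝓞 K ⧸ P) := Fintype.ofFinite _
  let e := ZMod.ringEquivOfPrime (𝓞 K ⧸ P) hq (by rw [← Nat.card_eq_fintype_card]; exact hcard)
  obtain ⟨m, hm⟩ : ∃ m : ℤ, x - (m : 𝓞 K) ∈ P := by
    obtain ⟨m, hm⟩ := ZMod.intCast_surjective (e.symm (Ideal.Quotient.mk P x))
    refine ⟨m, ?_⟩
    rw [← Ideal.Quotient.eq_zero_iff_mem, map_sub, sub_eq_zero, map_intCast]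
    have h1 := congrArg e hm
    rw [RingEquiv.apply_symm_apply, map_intCast] at h1
    exact h1.symm
  have h2 : ra Q.σ (x - (m : 𝓞 K)) ∈ P := by
    have := ra_mem_ia Q.σ hm
    rwa [hσ] at this
  have h3 : x - ra Q.σ x = (x - (m : 𝓞 K)) - ra Q.σ (x - (m : 𝓞 K)) := by
    rw [map_sub, map_intCast]; ring
  rw [h3]
  exact P.sub_mem hm h2

include Q in
/-- the ramified primes -/
theorem mem_of_root (hn0 : n ≠ 0) {q : ℕ} (hq : q.Prime) {P : Ideal (𝓞 K)}
    (hP : P ^ 2 = span {((q : ℕ) : 𝓞 K)}) : q ∈ Rn n := by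
  have hmem : ∀ m : ℕ, ∀ y : 𝓞 K, y ∈ P → y * y = -(m : 𝓞 K) → q ∣ m := by
    intro m y hy h
    have h1 : y * y ∈ P ^ 2 := by rw [sq]; exact Ideal.mul_mem_mul hy hy
    rw [h, hP, Ideal.mem_span_singleton, dvd_neg] at h1
    exact nat_dvd_of_coe h1
  by_cases hqn : q ∣ n
  · unfold Rn
    have : q ∈ n.primeFactors := by
      rw [Nat.mem_primeFactors]; exact ⟨hq, hqn, hn0⟩
    split_ifs
    · exact Finset.mem_insert_of_mem this
    · exact this
  · have h1 := Q.sub_mem hq hP Q.s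
    rw [Q.σs] at h1
    have h2 := hmem (4 * n) _ h1 (by
      have := Q.ss
      push_cast
      linear_combination 4 * this)
    have h3 : q ∣ 4 := by
      rcases (Nat.Prime.dvd_mul hq).1 h2 with h | h
      · exact h
      · exact absurd h hqn
    have h4 : q = 2 := by
      have : q ∣ 2 ^ 2 := by simpa using h3
      exact (Nat.prime_dvd_prime_iff_eq hq Nat.prime_two).1 (hq.dvd_of_dvd_pow this)
    subst h4
    have h5 : n % 4 = 1 ∨ n % 4 = 3 := by omega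
    rcases h5 with h5 | h5
    · unfold Rn
      rw [if_pos h5]
      exact Finset.mem_insert_self _ _
    · exfalso
      obtain ⟨e, he⟩ : ∃ e : ℕ, n + 1 = 4 * e := ⟨(n + 1) / 4, by omega⟩
      have hω : IsIntegral ℤ ((1 + (Q.s : K)) / 2) := by
        refine ⟨Polynomial.X ^ 2 - Polynomial.X + Polynomial.C (e : ℤ), ?_, ?_⟩
        · have : (Polynomial.X ^ 2 - Polynomial.X + Polynomial.C (e : ℤ) : Polynomial ℤ) =
            Polynomial.X ^ 2 + (- Polynomial.X + Polynomial.C (e : ℤ)) := by ring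
          rw [this]
          apply Polynomial.monic_X_pow_add
          have h1 : (-Polynomial.X + Polynomial.C (e : ℤ) : Polynomial ℤ).degree ≤ 1 := by
            refine (Polynomial.degree_add_le _ _).trans ?_
            rw [Polynomial.degree_neg, Polynomial.degree_X]
            exact max_le le_rfl (Polynomial.degree_C_le.trans (by norm_num))
          exact lt_of_le_of_lt h1 (by norm_num)
        · simp only [Polynomial.eval₂_sub, Polynomial.eval₂_add, Polynomial.eval₂_pow, Polynomial.eval₂_X,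
            Polynomial.eval₂_C]
          have h5 : (algebraMap ℤ K) (e : ℤ) = (e : K) := by simp
          rw [h5]
          have h6 : (n : K) + 1 = 4 * (e : K) := by exact_mod_cast he
          have h7 := Q.ssK
          linear_combination (1 / 4 : K) * h7 - (1 / 4 : K) * h6
      let ω : 𝓞 K := ⟨(1 + (Q.s : K)) / 2, hω⟩
      have h6 : ω - ra Q.σ ω = Q.s := by
        apply RingOfIntegers.ext
        have h7 : ((ω - ra Q.σ ω : 𝓞 K) : K) = (1 + (Q.s : K)) / 2 - Q.σ ((1 + (Q.s : K)) / 2) := rfl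
        rw [h7, map_div₀, map_add, map_one, Q.σK, map_ofNat]
        ring
      have h7 := Q.sub_mem hq hP ω
      rw [h6] at h7
      exact hqn (hmem n _ h7 Q.ss)

include Q in
/-- an ideal whose square is rational -/
theorem root_decomp (hn0 : n ≠ 0) {r : ℕ} (hr : r ≠ 0) {J : Ideal (𝓞 K)}
    (hJ : J ^ 2 = span {((r : ℕ) : 𝓞 K)}) :
    ∃ (D : Finset ℕ) (J' : Ideal (𝓞 K)) (m : ℕ), m ≠ 0 ∧ D ⊆ Rn n ∧
      J' ^ 2 = span {((∏ p ∈ D, p : ℕ) : 𝓞 K)} ∧ J = span {((m : ℕ) : 𝓞 K)} * J' := by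
  obtain ⟨d, m, hdm, hd⟩ := Nat.sq_mul_squarefree r
  have hm0 : m ≠ 0 := by
    rintro rfl
    apply hr
    rw [← hdm]; ring
  have h1 : span {((m : ℕ) : 𝓞 K)} ^ 2 ∣ J ^ 2 := by
    rw [hJ, ← hdm, Ideal.span_singleton_pow, Ideal.dvd_iff_le, Ideal.span_singleton_le_span_singleton]
    push_cast
    exact dvd_mul_right _ _
  obtain ⟨J', hJ'⟩ := (UniqueFactorizationMonoid.pow_dvd_pow_iff_dvd (two_ne_zero)).1 h1
  have h2 : J' ^ 2 = span {((d : ℕ) : 𝓞 K)} := by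
    have h3 : span {((m : ℕ) : 𝓞 K)} ^ 2 * J' ^ 2 = span {((m : ℕ) : 𝓞 K)} ^ 2 * span {((d : ℕ) : 𝓞 K)} := by
      rw [← mul_pow, ← hJ', hJ, ← hdm, Ideal.span_singleton_pow, Ideal.span_singleton_mul_span_singleton]
      push_cast
      rfl
    exact mul_left_cancel₀ (pow_ne_zero _ (span_nat_ne hm0)) h3
  refine ⟨d.primeFactors, J', m, hm0, ?_, ?_, hJ'⟩
  · intro q hq
    obtain ⟨hqp, ⟨d', hd'⟩, _⟩ := Nat.mem_primeFactors.1 hq
    apply Q.mem_of_root hn0 hqp (P := span {((q : ℕ) : 𝓞 K)} ⊔ J')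
    have hcop : IsCoprime (q : ℤ) (d' : ℤ) := by
      rw [Nat.isCoprime_iff_coprime]
      refine (Nat.Prime.coprime_iff_not_dvd hqp).2 ?_
      rintro ⟨e, he⟩
      have h1 : q * q ∣ d := ⟨e, by rw [hd', he]; ring⟩
      exact hqp.one_lt.ne' (Nat.isUnit_iff.1 (hd q h1))
    obtain ⟨u, w, huw⟩ := hcop
    apply le_antisymm
    · rw [sq, Ideal.sup_mul, Ideal.mul_sup, Ideal.mul_sup]
      refine sup_le (sup_le Ideal.mul_le_left Ideal.mul_le_left) (sup_le Ideal.mul_le_right ?_)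
      rw [← sq, h2, Ideal.span_singleton_le_span_singleton, hd']
      push_cast
      exact dvd_mul_right _ _
    · rw [Ideal.span_singleton_le_iff_mem]
      have e1 : (q : 𝓞 K) = (u : 𝓞 K) * ((q : 𝓞 K) * (q : 𝓞 K)) + (w : 𝓞 K) * ((d : ℕ) : 𝓞 K) := by
        rw [hd']
        have : (q : ℤ) = u * (q * q) + w * (q * d') := by linear_combination (-(q : ℤ)) * huw
        have h2 := congrArg (fun z : ℤ => (z : 𝓞 K)) this
        push_cast at h2 ⊢
        linear_combination h2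
      have m1 : (q : 𝓞 K) ∈ (span {(q : 𝓞 K)} ⊔ J' : Ideal (𝓞 K)) :=
        Ideal.mem_sup_left (Ideal.mem_span_singleton_self _)
      have m2 : ((d : ℕ) : 𝓞 K) ∈ (span {(q : 𝓞 K)} ⊔ J' : Ideal (𝓞 K)) ^ 2 := by
        have h5 : ((d : ℕ) : 𝓞 K) ∈ J' ^ 2 := by rw [h2]; exact Ideal.mem_span_singleton_self _
        exact Ideal.pow_right_mono le_sup_right 2 h5
      refine (congrArg (fun z => z ∈ (span {(q : 𝓞 K)} ⊔ J' : Ideal (𝓞 K)) ^ 2) e1).mpr ?_
      refine Ideal.add_mem _ (Ideal.mul_mem_left _ _ ?_) (Ideal.mul_mem_left _ _ m2)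
      rw [sq (span {(q : 𝓞 K)} ⊔ J' : Ideal (𝓞 K))]
      exact Ideal.mul_mem_mul m1 m1
  · rw [h2, Nat.prod_primeFactors_of_squarefree hd]

end Qd

end Pool.Agent.XR
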